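import Pool.Agent.H313UT.Stmts

/-! # Assembly for MP_ba14eb_lc -/

open FirstOrder FirstOrder.Language

namespace H313UT

theorem Pos.swapA {X Y κ : Type} {H : ℕ → X → X → Prop} {col : X → κ} {H' : ℕ → Y → Y → Prop}
    {col' : Y → κ} {n top m : ℕ} {a : Fin m → X} {b : Fin m → Y}
    (h : Pos H col H' col' n top a b) : Pos H' col' H col n top b a :=
  ⟨fun i j k hk => (h.rel i j k hk).symm, fun i k hk => (h.typ i k hk).symm⟩

theorem HN_topA {N : Type} [LL.Structure N] (K : ℕ) (x y : N) : HN K (K + 1) x y := by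
  simp [HN]

section

variable (tImg : TaskImg) (tCls : TaskCls) (tInv : TaskInv) (tLoc : TaskLoc) (tTrans : TaskTrans)
  (tTyFin : TaskTyFin) (tFin : TaskFin) (tDesc : TaskDesc) (tCount : TaskCount) (tForth : TaskForth)
  (tHN : TaskHN) (tPres : TaskPres) (tSupp : TaskSupp) (tFacts : TaskFacts) (tAx : TaskAx)
  (tSub : TaskSub) (tEx2 : TaskEx2) (tUty : TaskUty) (tCode : TaskCode) (tCopies : TaskCopies)
  (tRoot : TaskRoot) (tTree : TaskTree) (tBlk : TaskBlk) (tG0 : TaskG0) (tG1 : TaskG1)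
  (tG1b : TaskG1b) (tG2 : TaskG2) (tBr : TaskBr) (tSent : TaskSent) (tLang : TaskLang)

include tImg tCls tInv tLoc tTrans tTyFin tFin tDesc tCount tForth tHN tPres tSupp tFacts tSub
  tUty tCode tCopies tRoot in
theorem equiv_all (N : Type) [LL.Structure N] [Nonempty N] (hN : N ⊨ TT) (φ : LL.Sentence) :
    N ⊨ φ ↔ CS ⊨ φ := by
  obtain ⟨f⟩ := tFacts N hN
  obtain ⟨K, F, hK, hS⟩ := tSupp 0 φ
  set n := qd φ + 1 with hn
  obtain ⟨f0, hf0⟩ := tSub CS (fun c => ⟨c, rfl⟩)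
  haveI : Nonempty CS := ⟨cEl ⟨(0, [([], [])]), ⟨0, by simp⟩⟩⟩
  have hUty := tUty tCls tLoc tTrans tImg tHN tSub
  have hCop := tCopies tCls tInv tLoc tTrans tImg tHN tSub tFin
    tTyFin tCode
  have hroot := tRoot tCls tHN tSub tUty tCopies hUty hCop N f K F n hK (by omega)
  have hH := tHN N f K
  have hH0 := tHN CS f0 K
  have hDesc := tDesc
  refine tPres N CS K F n ?_ 0 φ hS (by omega) default default ?_
  · intro m a b hm hpos
    refine ⟨?_, ?_⟩
    · exact tForth tCls tInv tDesc tCount N CS _ (HN K) (colN K F) (HN K) (colN K F) n (K + 1) m a b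
        hH hH0 (HN_topA K) (HN_topA K) hroot inferInstance hm hpos
    · intro y
      obtain ⟨x, hx⟩ := tForth tCls tInv tDesc tCount CS N _ (HN K) (colN K F) (HN K) (colN K F) n
        (K + 1) m b a hH0 hH (HN_topA K) (HN_topA K) (fun x y => (hroot y x).symm) inferInstance hm
        hpos.swapA y
      exact ⟨x, hx.swapA⟩
  · exact ⟨fun i => i.elim0, fun i => i.elim0⟩

include tImg tCls tInv tLoc tTrans tTyFin tFin tDesc tCount tForth tHN tPres tSupp tFacts tAx tSub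
  tEx2 tUty tCode tCopies tRoot tTree tBlk tG0 tG1 tG1b tG2 tBr tSent tLang in
theorem main : ∃ (L : FirstOrder.Language.{0, 0}) (T : L.Theory), L.IsRelational ∧
    Countable L.Symbols ∧ T.IsComplete ∧ Axiomatizable false 2 T ∧
    ∃ (m : ℕ) (p : T.CompleteType (Fin m)), ¬ Bounded p.toTheory := by
  have heq := equiv_all tImg tCls tInv tLoc tTrans tTyFin tFin tDesc tCount tForth tHN tPres tSupp
    tFacts tSub tUty tCode tCopies tRoot
  have hmod : ∀ S : Set Big, (∀ c, Sum.inl c ∈ S) → (S ⊨ TT) := fun S hS =>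
    tAx S (tSub S hS).choose
  haveI : Nonempty CS := ⟨cEl ⟨(0, [([], [])]), ⟨0, by simp⟩⟩⟩
  haveI hCS : CS ⊨ TT := hmod CS (fun c => ⟨c, rfl⟩)
  refine ⟨LL, TT, tLang.1, tLang.2, ⟨⟨Theory.ModelType.of TT CS⟩, fun φ => ?_⟩, ?_, 1, ?_⟩
  · by_cases hφ : CS ⊨ φ
    · left
      rw [Theory.models_sentence_iff]
      intro M
      exact (heq M M.is_model φ).2 hφ
    · right
      rw [Theory.models_sentence_iff]
      intro M
      rw [Sentence.realize_not]
      exact fun h => hφ ((heq M M.is_model φ).1 h)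
  · refine ⟨TT, fun φ hφ => tEx2 φ hφ, fun φ hφ => ?_, fun φ hφ => ?_⟩ <;>
    · rw [Theory.models_sentence_iff]
      intro M
      exact Theory.realize_sentence_of_mem TT hφ
  · let ρ0 : ℕ → Bool := fun _ => true
    haveI h0 : (NS ρ0) ⊨ TT := hmod _ (fun c => trivial)
    haveI : Nonempty (NS ρ0) := ⟨star ρ0⟩
    refine ⟨TT.typeOf (fun _ : Fin 1 => star ρ0), ?_⟩
    rintro ⟨n, Γ, hΓ1, hΓ2, hΓ3⟩
    let ρ1 : ℕ → Bool := fun k => if k = n + 1 then false else true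
    haveI : Nonempty (NS ρ1) := ⟨star ρ1⟩
    obtain ⟨ψ, hψ⟩ := tSent tBr (n + 1) (by omega)
    haveI m0 : (NS ρ0) ⊨ (TT.typeOf (fun _ : Fin 1 => star ρ0)).toTheory := by
      change (NS ρ0) ⊨ (LL[[Fin 1]]).completeTheory (NS ρ0)
      infer_instance
    have hΓ0 : ∀ φ ∈ Γ, (NS ρ0) ⊨ φ := fun φ hφ => (hΓ2 φ hφ).realize_sentence (NS ρ0)
    have hne : ∀ k, k ≠ n + 1 → ρ0 k = ρ1 k := by
      intro k hk
      simp [ρ0, ρ1, hk]
    have hb := tBlk LL[[Fin 1]] (NS ρ0) (NS ρ1) (GP (n + 1) ρ0 ρ1)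
      (fun d n' m a b h φ hφ => tG0 (n + 1) ρ0 ρ1 d n' m a b h φ hφ)
      (fun n' m a b h => tG1 tTree (n + 1) ρ0 ρ1 hne n' m a b h)
      (fun n' m a b h => tG1b tTree (n + 1) ρ0 ρ1 hne n' m a b h)
      (fun n' m a b h => (tG2 (n + 1) ρ0 ρ1 n' m a b).1 h)
      (fun n' m a b h => (tG2 (n + 1) ρ0 ρ1 n' m a b).2 h)
    haveI m1 : (NS ρ1) ⊨ Γ := by
      rw [Theory.model_iff]
      intro φ hφ
      have h1 := ((hb true n 0 φ (hΓ1 φ hφ) default default).2 rfl).2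
        ⟨le_rfl, fun i => i.elim0, fun i => i.elim0, fun i => i.elim0, fun i => i.elim0⟩
      exact h1 (hΓ0 φ hφ)
    have hψ0 : (NS ρ0) ⊨ ψ := (hψ ρ0).2 rfl
    have hmem : ψ ∈ (TT.typeOf (fun _ : Fin 1 => star ρ0)).toTheory := by
      change ψ ∈ (LL[[Fin 1]]).completeTheory (NS ρ0)
      exact hψ0
    have h2 : (NS ρ1) ⊨ ψ := (hΓ3 ψ hmem).realize_sentence (NS ρ1)
    have h3 := (hψ ρ1).1 h2
    simp [ρ1] at h3

end

end H313UT
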