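import Mathlib

/-! # The syntactic classes `∀ₙ`, `∃ₙ`, axiomatizability and bounded theories -/

open FirstOrder FirstOrder.Language

namespace H313UT

/-- `Blk true n φ`: `φ` is a `∀ₙ`-formula; `Blk false n φ`: `φ` is an `∃ₙ`-formula. -/
inductive Blk {L : FirstOrder.Language.{0, 0}} {α : Type} :
    Bool → ℕ → ∀ {m : ℕ}, L.BoundedFormula α m → Prop
  | qf {b : Bool} {m : ℕ} {φ : L.BoundedFormula α m} : φ.IsQF → Blk b 0 φ
  | step {b : Bool} {n m : ℕ} {φ : L.BoundedFormula α m} : Blk (!b) n φ → Blk b (n + 1) φ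
  | all {n m : ℕ} {φ : L.BoundedFormula α (m + 1)} : Blk true (n + 1) φ → Blk true (n + 1) φ.all
  | ex {n m : ℕ} {φ : L.BoundedFormula α (m + 1)} : Blk false (n + 1) φ → Blk false (n + 1) φ.ex

/-- `T` is axiomatized by `∀ₙ`-sentences (`b = true`), resp. by `∃ₙ`-sentences (`b = false`). -/
def Axiomatizable {L : FirstOrder.Language.{0, 0}} (b : Bool) (n : ℕ) (T : L.Theory) : Prop :=
  ∃ Γ : L.Theory, (∀ φ ∈ Γ, Blk b n φ) ∧ (∀ φ ∈ Γ, T ⊨ᵇ φ) ∧ (∀ φ ∈ T, Γ ⊨ᵇ φ)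

/-- `T` is bounded. -/
def Bounded {L : FirstOrder.Language.{0, 0}} (T : L.Theory) : Prop := ∃ n, Axiomatizable true n T

end H313UT
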