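import Mathlib
import Pool.Agent.H313UT.Classes

/-! # Definitions for MP_ba14eb_lc (unbounded types in an `∃₂`-axiomatizable complete relational theory) -/

open FirstOrder FirstOrder.Language

set_option linter.unusedVariables false

namespace H313UT

/-- A code of a finite structure: a list of elements, each given by a list of labels and a list of
colours. -/
abbrev Code := List (List ℕ × List Bool)

/-- The countable structure `C`: infinitely many copies of every code. -/
abbrev C0 := Σ p : ℕ × Code, Fin p.2.length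

/-- All elements that occur: those of `C`, and pairs (sort, branch). -/
abbrev Big := C0 ⊕ (ℕ × (ℕ → ℕ × Bool))

/-- The component of an element. -/
def comp : Big → Option (ℕ × Code)
  | .inl c => some c.1
  | .inr _ => none

/-- The labels of an element. -/
def lab : Big → ℕ → ℕ × Bool
  | .inl c, r => ((c.1.2.get c.2).1.getD r 0, true)
  | .inr p, 0 => (p.1, true)
  | .inr p, r + 1 => p.2 r

/-- The nested equivalence relations. -/
def bR (j : ℕ) (x y : Big) : Prop := comp x = comp y ∧ ∀ r < j, lab x r = lab y r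

/-- The unary predicates. -/
def bV : ℕ → Big → Prop
  | k, .inl c => (c.1.2.get c.2).2.getD k false = true
  | 0, .inr p => (p.2 (p.1 - 1)).2 = true
  | k + 1, .inr p => p.1 = k

/-- Relation symbols. -/
inductive LRel : ℕ → Type
  | U (c : C0) : LRel 1
  | V (k : ℕ) : LRel 1
  | R (j : ℕ) : LRel 2

/-- The language. -/
def LL : FirstOrder.Language.{0, 0} := ⟨fun _ => Empty, LRel⟩

/-- The structure on a set of elements of `Big`. -/
instance strS (S : Set Big) : LL.Structure S where
  funMap f := Empty.elim f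
  RelMap r v := match r, v with
    | LRel.U c, v => (v 0).1 = .inl c
    | LRel.V k, v => bV k (v 0).1
    | LRel.R j, v => bR j (v 0).1 (v 1).1

/-- interpretation of `U c` -/
def rU {N : Type} [LL.Structure N] (c : C0) (x : N) : Prop :=
  Structure.RelMap (L := LL) (LRel.U c : LL.Relations 1) ![x]
/-- interpretation of `V k` -/
def rV {N : Type} [LL.Structure N] (k : ℕ) (x : N) : Prop :=
  Structure.RelMap (L := LL) (LRel.V k : LL.Relations 1) ![x]
/-- interpretation of `R j` -/
def rR {N : Type} [LL.Structure N] (j : ℕ) (x y : N) : Prop :=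
  Structure.RelMap (L := LL) (LRel.R j : LL.Relations 2) ![x, y]

/-- The facts about a model that we use. -/
structure Facts (N : Type) [LL.Structure N] where
  u : C0 → N
  hu : ∀ c x, rU c x ↔ x = u c
  inj : Function.Injective u
  hR : ∀ c c' j, rR j (u c) (u c') ↔ bR j (.inl c) (.inl c')
  hV : ∀ c k, rV k (u c) ↔ bV k (.inl c)
  eqv : ∀ j, Equivalence (fun x y : N => rR j x y)
  nest : ∀ j (x y : N), rR (j + 1) x y → rR j x y
  closed : ∀ c x, rR 0 (u c) x → ∃ c', x = u c'

/-! ### The axioms -/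

/-- atomic formulas -/
def fU {m : ℕ} (c : C0) (i : Fin m) : LL.BoundedFormula Empty m :=
  Relations.boundedFormula₁ (L := LL) (LRel.U c : LL.Relations 1) (Term.var (.inr i))
def fV {m : ℕ} (k : ℕ) (i : Fin m) : LL.BoundedFormula Empty m :=
  Relations.boundedFormula₁ (L := LL) (LRel.V k : LL.Relations 1) (Term.var (.inr i))
def fR {m : ℕ} (j : ℕ) (i i' : Fin m) : LL.BoundedFormula Empty m :=
  Relations.boundedFormula₂ (L := LL) (LRel.R j : LL.Relations 2) (Term.var (.inr i)) (Term.var (.inr i'))

/-- The elements of `C` in the component of `c`. -/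
def compList (c : C0) : List C0 := (List.finRange c.1.2.length).map fun i => ⟨c.1, i⟩

/-- finite disjunction -/
def disj {m : ℕ} : List (LL.BoundedFormula Empty m) → LL.BoundedFormula Empty m
  | [] => ⊥
  | φ :: l => φ ⊔ disj l

/-- The theory `T`. -/
inductive Ax : LL.Sentence → Prop
  | name (c : C0) : Ax (BoundedFormula.ex (BoundedFormula.all
      ((fU c (1 : Fin 2)).iff ((Term.var (.inr (1 : Fin 2))).bdEqual (Term.var (.inr (0 : Fin 2)))))))
  | disjoint (c c' : C0) (h : c ≠ c') : Ax (BoundedFormula.all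
      ((fU c (0 : Fin 1)).imp (fU c' (0 : Fin 1)).not))
  | relPos (c c' : C0) (j : ℕ) (h : bR j (.inl c) (.inl c')) : Ax (BoundedFormula.all
      (BoundedFormula.all ((fU c (0 : Fin 2)).imp ((fU c' (1 : Fin 2)).imp (fR j 0 1)))))
  | relNeg (c c' : C0) (j : ℕ) (h : ¬ bR j (.inl c) (.inl c')) : Ax (BoundedFormula.all
      (BoundedFormula.all ((fU c (0 : Fin 2)).imp ((fU c' (1 : Fin 2)).imp (fR j 0 1).not))))
  | colPos (c : C0) (k : ℕ) (h : bV k (.inl c)) : Ax (BoundedFormula.all
      ((fU c (0 : Fin 1)).imp (fV k 0)))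
  | colNeg (c : C0) (k : ℕ) (h : ¬ bV k (.inl c)) : Ax (BoundedFormula.all
      ((fU c (0 : Fin 1)).imp (fV k 0).not))
  | refl (j : ℕ) : Ax (BoundedFormula.all (fR j (0 : Fin 1) 0))
  | symm (j : ℕ) : Ax (BoundedFormula.all (BoundedFormula.all ((fR j (0 : Fin 2) 1).imp (fR j 1 0))))
  | trans (j : ℕ) : Ax (BoundedFormula.all (BoundedFormula.all (BoundedFormula.all
      ((fR j (0 : Fin 3) 1).imp ((fR j 1 2).imp (fR j 0 2))))))
  | nest (j : ℕ) : Ax (BoundedFormula.all (BoundedFormula.all
      ((fR (j + 1) (0 : Fin 2) 1).imp (fR j 0 1))))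
  | closed (c : C0) : Ax (BoundedFormula.all (BoundedFormula.all
      ((fU c (0 : Fin 2)).imp ((fR 0 0 1).imp (disj ((compList c).map fun c' => fU c' (1 : Fin 2)))))))

/-- The theory `T` as a set of sentences. -/
def TT : LL.Theory := {φ | Ax φ}

/-! ### Types of nodes -/

/-- The finite set of types of nodes of height `h`, with multiplicities counted up to `n`. -/
def Ty (κ : Type) (n : ℕ) : ℕ → Type
  | 0 => κ
  | h + 1 => Ty κ n h → Fin (n + 1) → Prop

/-- The type of the `H h`-class of `x`, computed in the subset `S`. -/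
def ty {X κ : Type} (H : ℕ → X → X → Prop) (col : X → κ) (n : ℕ) (S : Set X) :
    (h : ℕ) → X → Ty κ n h
  | 0, x => col x
  | h + 1, x => fun t m => (((m : ℕ) : ℕ∞)) ≤
      ((fun y => {z | H h z y}) '' {y | y ∈ S ∧ H (h + 1) y x ∧ ty H col n S h y = t}).encard

/-- An increasing system of equivalence relations, starting with equality. -/
structure HSys {X : Type} (H : ℕ → X → X → Prop) : Prop where
  eqv : ∀ h, Equivalence (H h)
  zero : ∀ x y, H 0 x y ↔ x = y
  mono : ∀ h x y, H h x y → H (h + 1) x y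

/-- positions of the game -/
structure Pos {X Y κ : Type} (H : ℕ → X → X → Prop) (col : X → κ) (H' : ℕ → Y → Y → Prop)
    (col' : Y → κ) (n top : ℕ) {m : ℕ} (a : Fin m → X) (b : Fin m → Y) : Prop where
  rel : ∀ i j h, h ≤ top → (H h (a i) (a j) ↔ H' h (b i) (b j))
  typ : ∀ i h, h ≤ top → ty H col n Set.univ h (a i) = ty H' col' n Set.univ h (b i)

/-- The system of a model, for the relations `R j`, `j < K`: height `0` is equality, height `h` with
`1 ≤ h ≤ K` is `R (K - h)`, and greater heights are total. -/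
def HN {N : Type} [LL.Structure N] (K : ℕ) (h : ℕ) (x y : N) : Prop :=
  if h = 0 then x = y else if h ≤ K then rR (K - h) x y else True

/-- The colour of an element. -/
def colN {N : Type} [LL.Structure N] (K : ℕ) (F : Finset C0) (x : N) : (Fin K → Prop) × (F → Prop) :=
  (fun k => rV k.1 x, fun c => rU c.1 x)

/-- quantifier depth -/
def qd {m : ℕ} : LL.BoundedFormula Empty m → ℕ
  | .falsum => 0
  | .equal _ _ => 0
  | .rel _ _ => 0
  | .imp φ ψ => max (qd φ) (qd ψ)
  | .all φ => qd φ + 1

/-- The symbols of the formula are `R j`, `V j` with `j < K`, and `U c` with `c ∈ F`. -/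
def SymOK (K : ℕ) (F : Finset C0) : {l : ℕ} → LRel l → Prop
  | _, .U c => c ∈ F
  | _, .V k => k < K
  | _, .R j => j < K

def Supp (K : ℕ) (F : Finset C0) {m : ℕ} : LL.BoundedFormula Empty m → Prop
  | .falsum => True
  | .equal _ _ => True
  | .rel R _ => SymOK K F R
  | .imp φ ψ => Supp K F φ ∧ Supp K F ψ
  | .all φ => Supp K F φ

/-! ### The trees -/

/-- The type (`true` = P, `false` = Q) of the node of level `l` on the branch `s`, if the root has
type `ρ`. -/
def typ (ρ : Bool) (s : ℕ → ℕ × Bool) : ℕ → Bool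
  | 0 => ρ
  | l + 1 => (s l).2

/-- The branches of the tree of height `κ` with root type `ρ`. -/
def Lf (κ : ℕ) (ρ : Bool) : Set (ℕ → ℕ × Bool) :=
  {s | (∀ i, κ ≤ i → s i = (0, true)) ∧ ∀ i < κ, ¬ (typ ρ s i = false ∧ typ ρ s (i + 1) = false)}

/-- The model with root types `ρ`. -/
def NS (ρ : ℕ → Bool) : Set Big :=
  {x | match x with
    | .inl _ => True
    | .inr p => p.2 ∈ Lf p.1 (ρ p.1)}

/-- The new element. -/
def star (ρ : ℕ → Bool) : NS ρ := ⟨.inr (0, fun _ => (0, true)), by
  refine ⟨fun _ _ => rfl, fun i hi => absurd hi (Nat.not_lt_zero i)⟩⟩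

/-- admissible pairs of types at level `l` when `n` blocks remain -/
def Good (κ n : ℕ) (t t' : Bool) (l : ℕ) : Prop :=
  l + n < κ ∨ (l + n = κ ∧ 1 ≤ n ∧ t = false ∧ t' = true) ∨ t = t'

/-- positions of the tree game -/
structure TPos (κ : ℕ) (ρ ρ' : Bool) (n : ℕ) {ι : Type} (a b : ι → ℕ → ℕ × Bool) : Prop where
  good : ∀ i l, l ≤ κ → Good κ n (typ ρ (a i) l) (typ ρ' (b i) l) l
  agree : ∀ i j l, (∀ r < l, a i r = a j r) ↔ (∀ r < l, b i r = b j r)

end H313UT
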