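import Pool.Agent.H313UT.Stmts

open FirstOrder FirstOrder.Language

set_option linter.unusedVariables false
set_option linter.unusedSimpArgs false

namespace H313UT

namespace AxP

variable {N : Type} [LL.Structure N]

theorem rz_fU {m : ℕ} (c : C0) (i : Fin m) (v : Empty → N) (xs : Fin m → N) :
    (fU c i).Realize v xs ↔ rU c (xs i) := by
  exact BoundedFormula.realize_rel₁ (L := LL) (R := (LRel.U c : LL.Relations 1))
    (t := Term.var (.inr i)) (v := v) (xs := xs)

theorem rz_fV {m : ℕ} (c : ℕ) (i : Fin m) (v : Empty → N) (xs : Fin m → N) :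
    (fV c i).Realize v xs ↔ rV c (xs i) := by
  exact BoundedFormula.realize_rel₁ (L := LL) (R := (LRel.V c : LL.Relations 1))
    (t := Term.var (.inr i)) (v := v) (xs := xs)

theorem rz_fR {m : ℕ} (c : ℕ) (i j : Fin m) (v : Empty → N) (xs : Fin m → N) :
    (fR c i j).Realize v xs ↔ rR c (xs i) (xs j) := by
  exact BoundedFormula.realize_rel₂ (L := LL) (R := (LRel.R c : LL.Relations 2))
    (t₁ := Term.var (.inr i)) (t₂ := Term.var (.inr j)) (v := v) (xs := xs)

theorem rz_disj {m : ℕ} (l : List (LL.BoundedFormula Empty m)) (v : Empty → N) (xs : Fin m → N) :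
    (disj l).Realize v xs ↔ ∃ φ ∈ l, φ.Realize v xs := by
  induction l with
  | nil => simp [disj]
  | cons a l ih => simp [disj, ih]

end AxP

open AxP in
theorem TaskAx_proof : TaskAx := by
  intro N _ f
  rw [Theory.model_iff]
  intro φ hφ
  change Ax φ at hφ
  cases hφ with
  | name c =>
    simp only [Sentence.Realize, Formula.Realize, BoundedFormula.realize_ex,
      BoundedFormula.realize_all, BoundedFormula.realize_iff, rz_fU, BoundedFormula.realize_bdEqual]
    refine ⟨f.u c, fun x => ?_⟩
    exact f.hu c x
  | disjoint c c' h =>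
    simp only [Sentence.Realize, Formula.Realize, 
      BoundedFormula.realize_all, BoundedFormula.realize_imp, BoundedFormula.realize_not, rz_fU]
    intro x h1 h2
    rw [f.hu] at h1 h2
    exact h (f.inj (h1.symm.trans h2))
  | relPos c c' j h =>
    simp only [Sentence.Realize, Formula.Realize, 
      BoundedFormula.realize_all, BoundedFormula.realize_imp, BoundedFormula.realize_not, rz_fU, rz_fR]
    intro x y h1 h2
    rw [f.hu] at h1 h2
    rw [h1, h2, f.hR]
    exact h
  | relNeg c c' j h =>
    simp only [Sentence.Realize, Formula.Realize, 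
      BoundedFormula.realize_all, BoundedFormula.realize_imp, BoundedFormula.realize_not, rz_fU, rz_fR]
    intro x y h1 h2
    rw [f.hu] at h1 h2
    rw [h1, h2, f.hR]
    exact h
  | colPos c k h =>
    simp only [Sentence.Realize, Formula.Realize, 
      BoundedFormula.realize_all, BoundedFormula.realize_imp, BoundedFormula.realize_not, rz_fU, rz_fV]
    intro x h1
    rw [f.hu] at h1
    rw [h1, f.hV]
    exact h
  | colNeg c k h =>
    simp only [Sentence.Realize, Formula.Realize, 
      BoundedFormula.realize_all, BoundedFormula.realize_imp, BoundedFormula.realize_not, rz_fU, rz_fV]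
    intro x h1
    rw [f.hu] at h1
    rw [h1, f.hV]
    exact h
  | refl j =>
    simp only [Sentence.Realize, Formula.Realize, 
      BoundedFormula.realize_all, rz_fR]
    intro x
    exact (f.eqv j).refl _
  | symm j =>
    simp only [Sentence.Realize, Formula.Realize, 
      BoundedFormula.realize_all, BoundedFormula.realize_imp, rz_fR]
    intro x y h
    exact (f.eqv j).symm h
  | trans j =>
    simp only [Sentence.Realize, Formula.Realize, 
      BoundedFormula.realize_all, BoundedFormula.realize_imp, rz_fR]
    intro x y z h h'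
    exact (f.eqv j).trans h h'
  | nest j =>
    simp only [Sentence.Realize, Formula.Realize, 
      BoundedFormula.realize_all, BoundedFormula.realize_imp, rz_fR]
    intro x y h
    exact f.nest j _ _ h
  | closed c =>
    simp only [Sentence.Realize, Formula.Realize, 
      BoundedFormula.realize_all, BoundedFormula.realize_imp, rz_fR, rz_fU, rz_disj]
    intro x y h1 h2
    rw [f.hu] at h1
    rw [h1] at h2
    obtain ⟨c', hc'⟩ := f.closed c _ h2
    rw [hc', f.hR] at h2
    refine ⟨fU c' (1 : Fin 2), ?_, ?_⟩
    · rw [List.mem_map]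
      refine ⟨c', ?_, rfl⟩
      have h3 : c.1 = c'.1 := Option.some.inj h2.1
      obtain ⟨p, i⟩ := c
      obtain ⟨p', i'⟩ := c'
      simp only at h3
      subst h3
      simp [compList]
    · rw [rz_fU, f.hu]
      exact hc'

end H313UT
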