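import Pool.Agent.H313UT.Stmts

/-! Proof of `TaskBlk` (preservation of `∃ₙ`- and `∀ₙ`-formulas). -/

open FirstOrder FirstOrder.Language

set_option linter.unusedVariables false

namespace H313UT

theorem TaskBlk_proof : TaskBlk := by
  intro L A B _ _ P hqf hf hb htf hft c n m φ hφ
  induction hφ with
  | @qf d m φ h =>
    intro a b
    refine ⟨fun _ => ⟨fun hp ha => ?_, fun hp ha => ?_⟩, fun _ => ⟨fun hp ha => ?_, fun hp ha => ?_⟩⟩
    · exact (hqf _ _ _ _ _ hp φ h).1 ha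
    · exact (hqf _ _ _ _ _ hp φ h).2 ha
    · exact (hqf _ _ _ _ _ hp φ h).2 ha
    · exact (hqf _ _ _ _ _ hp φ h).1 ha
  | @step d n m φ h ih =>
    intro a b
    have ih' := ih a b
    constructor
    · intro hd
      subst hd
      obtain ⟨h1, h2⟩ := ih'.2 rfl
      exact ⟨fun hp ha => h2 (htf _ _ _ _ hp) ha, fun hp ha => h1 (hft _ _ _ _ hp) ha⟩
    · intro hd
      subst hd
      obtain ⟨h1, h2⟩ := ih'.1 rfl
      exact ⟨fun hp ha => h2 (htf _ _ _ _ hp) ha, fun hp ha => h1 (hft _ _ _ _ hp) ha⟩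
  | @all n m φ h ih =>
    intro a b
    refine ⟨fun hd => absurd hd (by simp), fun _ => ⟨fun hp hr => ?_, fun hp hr => ?_⟩⟩
    · rw [BoundedFormula.realize_all] at hr ⊢
      intro x
      obtain ⟨y, hy⟩ := hf _ _ _ _ hp x
      exact ((ih _ _).2 rfl).1 hy (hr y)
    · rw [BoundedFormula.realize_all] at hr ⊢
      intro y
      obtain ⟨x, hx⟩ := hb _ _ _ _ hp y
      exact ((ih _ _).2 rfl).2 hx (hr x)
  | @ex n m φ h ih =>
    intro a b
    refine ⟨fun _ => ⟨fun hp hr => ?_, fun hp hr => ?_⟩, fun hd => absurd hd (by simp)⟩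
    · rw [BoundedFormula.realize_ex] at hr ⊢
      obtain ⟨x, hx⟩ := hr
      obtain ⟨y, hy⟩ := hf _ _ _ _ hp x
      exact ⟨y, ((ih _ _).1 rfl).1 hy hx⟩
    · rw [BoundedFormula.realize_ex] at hr ⊢
      obtain ⟨y, hy⟩ := hr
      obtain ⟨x, hx⟩ := hb _ _ _ _ hp y
      exact ⟨x, ((ih _ _).1 rfl).2 hx hy⟩

end H313UT
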