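import Pool.Agent.H313UT.Stmts

/-! # Branches -/

set_option autoImplicit false

namespace H313UT

theorem typ_congr_of_agree (ρ : Bool) (s s' : ℕ → ℕ × Bool) (l : ℕ) (h : ∀ r < l, s' r = s r) :
    ∀ i, i ≤ l → typ ρ s' i = typ ρ s i := by
  intro i hi
  cases i with
  | zero => rfl
  | succ k =>
      show (s' k).2 = (s k).2
      rw [h k (by omega)]

theorem TaskBr_proof : TaskBr := by
  intro κ ρ
  refine ⟨⟨fun _ => (0, true), fun _ _ => rfl, fun i _ h => ?_⟩, ?_⟩
  · have h2 : (true : Bool) = false := h.2
    exact absurd h2 (by decide)
  · intro s hs l hl
    constructor
    · intro ht
      have hag : ∀ r < l, (fun r => if r < l then s r else if r = l then (0, false) else (0, true) :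
          ℕ → ℕ × Bool) r = s r := by
        intro r hr
        simp only [hr, if_true]
      refine ⟨fun r => if r < l then s r else if r = l then (0, false) else (0, true), ⟨?_, ?_⟩, hag, ?_⟩
      · intro i hi
        have h1 : ¬ i < l := by omega
        have h2 : i ≠ l := by omega
        simp only [h1, h2, if_false]
      · intro i hi hcon
        rcases lt_trichotomy i l with h | h | h
        · rw [typ_congr_of_agree ρ s _ l hag i (by omega),
            typ_congr_of_agree ρ s _ l hag (i + 1) (by omega)] at hcon
          exact hs.2 i hi hcon
        · subst h
          rw [typ_congr_of_agree ρ s _ i hag i le_rfl, ht] at hcon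
          exact absurd hcon.1 (by decide)
        · have h2 := hcon.2
          have h3 : typ ρ (fun r => if r < l then s r else if r = l then (0, false) else (0, true))
              (i + 1) = true := by
            show ((if i < l then s i else if i = l then (0, false) else (0, true)) : ℕ × Bool).2 = true
            have h4 : ¬ i < l := by omega
            have h5 : i ≠ l := by omega
            simp only [h4, h5, if_false]
          rw [h3] at h2
          exact absurd h2 (by decide)
      · show ((if l < l then s l else if l = l then (0, false) else (0, true)) : ℕ × Bool).2 = false
        simp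
    · rintro ⟨s', hs', hag, hf⟩
      rw [← typ_congr_of_agree ρ s s' l hag l le_rfl]
      by_contra hne
      have h1 : typ ρ s' l = false := by
        cases h : typ ρ s' l with
        | true => exact absurd h hne
        | false => rfl
      exact hs'.2 l hl ⟨h1, hf⟩

end H313UT
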