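import Pool.Agent.H313UT.Stmts

/-! TaskCls (helper135). -/

namespace H313UT

theorem TaskCls_proof : TaskCls := by
  intro X H hH
  refine ⟨?_, ?_⟩
  · intro h h' x y hle hxy
    induction hle with
    | refl => exact hxy
    | step _ ih => exact hH.mono _ _ _ ih
  · intro h x y
    constructor
    · intro he
      have h1 : x ∈ {z | H h z x} := (hH.eqv h).refl x
      rw [he] at h1
      exact h1
    · intro hxy
      ext z
      exact ⟨fun hz => (hH.eqv h).trans hz hxy, fun hz => (hH.eqv h).trans hz ((hH.eqv h).symm hxy)⟩

end H313UT
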