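import Pool.Agent.H313UT.Stmts

open FirstOrder FirstOrder.Language

namespace H313UT

lemma tc_getD {α : Type} {n : ℕ} (F : Fin n → α) (r : ℕ) (h : r < n) (d : α) :
    (List.ofFn F).getD r d = F ⟨r, h⟩ := by
  rw [List.getD_eq_getElem _ _ (by simpa using h)]
  simp

lemma tc_nest {N : Type} [LL.Structure N] (f : Facts N) (x y : N) (r d : ℕ)
    (h : rR (r + d) x y) : rR r x y := by
  induction d with
  | zero => exact h
  | succ d ih => exact ih (f.nest _ _ _ h)

theorem TaskCode_proof : TaskCode := by
  intro N _ f K S hS hS0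
  classical
  haveI : Finite S := hS
  have hg0 : ∀ r : ℕ, ∃ g : S → ℕ, ∀ x y : S, g x = g y ↔ rR (r + 1) x.1 y.1 := by
    intro r
    let st : Setoid S := ⟨fun x y => rR (r + 1) x.1 y.1,
      ⟨fun x => (f.eqv (r + 1)).refl _, fun h => (f.eqv (r + 1)).symm h,
        fun h h' => (f.eqv (r + 1)).trans h h'⟩⟩
    obtain ⟨g, hg⟩ := exists_injective_nat (Quotient st)
    refine ⟨fun x => g (Quotient.mk st x), fun x y => ?_⟩
    constructor
    · intro h
      exact Quotient.exact (hg h)
    · intro h
      exact congrArg g (Quotient.sound h)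
  choose g hg using hg0
  obtain ⟨n, ⟨en⟩⟩ := Finite.exists_equiv_fin S
  let F : Fin n → List ℕ × List Bool := fun i =>
    (List.ofFn (fun r : Fin K => g r.1 (en.symm i)),
      List.ofFn (fun k : Fin K => decide (rV k.1 (en.symm i).1)))
  have hlen : (List.ofFn F).length = n := by simp
  have hget : ∀ i : Fin (List.ofFn F).length, (List.ofFn F).get i = F (Fin.cast hlen i) := by
    intro i
    rw [List.get_ofFn]
  refine ⟨List.ofFn F, fun i => (en.symm (Fin.cast hlen i)).1, ?_, ?_, ?_, ?_⟩
  · intro i i' h
    have h1 : en.symm (Fin.cast hlen i) = en.symm (Fin.cast hlen i') := Subtype.ext h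
    have h2 := en.symm.injective h1
    exact Fin.cast_injective hlen h2
  · ext x
    constructor
    · rintro ⟨i, rfl⟩
      exact (en.symm (Fin.cast hlen i)).2
    · intro hx
      refine ⟨Fin.cast hlen.symm (en ⟨x, hx⟩), ?_⟩
      simp
  · intro q i i' j hj
    have hlab : ∀ (i : Fin (List.ofFn F).length) (r : ℕ), r < K →
        lab (Sum.inl ⟨(q, List.ofFn F), i⟩) r = (g r (en.symm (Fin.cast hlen i)), true) := by
      intro i r hr
      have h1 : lab (Sum.inl ⟨(q, List.ofFn F), i⟩) r =
          (((List.ofFn F).get i).1.getD r 0, true) := rfl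
      rw [h1, hget i]
      have h2 : (F (Fin.cast hlen i)).1.getD r 0 = g r (en.symm (Fin.cast hlen i)) :=
        tc_getD (fun r : Fin K => g r.1 (en.symm (Fin.cast hlen i))) r hr 0
      rw [h2]
    constructor
    · rintro ⟨_, h⟩
      cases j with
      | zero => exact hS0 _ (en.symm (Fin.cast hlen i)).2 _ (en.symm (Fin.cast hlen i')).2
      | succ j =>
        have h1 := h j (Nat.lt_succ_self j)
        rw [hlab i j (by omega), hlab i' j (by omega)] at h1
        exact (hg j _ _).1 (Prod.mk.inj h1).1
    · intro h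
      refine ⟨rfl, fun r hr => ?_⟩
      rw [hlab i r (by omega), hlab i' r (by omega)]
      have h1 : rR (r + 1) (en.symm (Fin.cast hlen i)).1 (en.symm (Fin.cast hlen i')).1 := by
        apply tc_nest f _ _ (r + 1) (j - (r + 1))
        have h2 : r + 1 + (j - (r + 1)) = j := by omega
        rw [h2]
        exact h
      rw [(hg r _ _).2 h1]
  · intro q i k hk
    have h1 : bV k (Sum.inl ⟨(q, List.ofFn F), i⟩) ↔
        (((List.ofFn F).get i).2.getD k false = true) := by
      cases k <;> exact Iff.rfl
    rw [h1, hget i]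
    have h2 : (F (Fin.cast hlen i)).2.getD k false =
        decide (rV k (en.symm (Fin.cast hlen i)).1) :=
      tc_getD (fun k : Fin K => decide (rV k.1 (en.symm (Fin.cast hlen i)).1)) k hk false
    rw [h2, decide_eq_true_iff]

end H313UT
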