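import Pool.Agent.H313UT.Stmts

set_option autoImplicit false

open FirstOrder FirstOrder.Language

set_option linter.unusedVariables false

namespace H313UT

theorem HN_top {M : Type} [LL.Structure M] (K : ℕ) (hK : 1 ≤ K) (z y : M) :
    HN K K z y ↔ rR 0 z y := by
  unfold HN
  rw [if_neg (by omega), if_pos le_rfl, Nat.sub_self]

theorem rR_CS (j : ℕ) (y y' : CS) : rR j y y' ↔ bR j y.1 y'.1 := Iff.rfl

theorem rV_CS (k : ℕ) (y : CS) : rV k y ↔ bV k y.1 := Iff.rfl

theorem rU_CS (c : C0) (y : CS) : rU c y ↔ y.1 = Sum.inl c := Iff.rfl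

theorem TaskCopies_proof : TaskCopies := by
  intro hCls hInv hLoc hTrans hImg hHN hSub hFin hTyFin hCode N _ f K F n hK hn x hx
  have hsN : HSys (HN K : ℕ → N → N → Prop) := hHN N f K
  obtain ⟨fC, -⟩ := hSub CS (fun c => ⟨c, rfl⟩)
  have hsC : HSys (HN K : ℕ → CS → CS → Prop) := hHN CS fC K
  obtain ⟨S, hSf, ⟨s0, hs0⟩, hSx, hSty⟩ := hFin hCls hInv hLoc hTyFin N
    ((Fin K → Prop) × (F → Prop)) (HN K) (colN K F) n hsN inferInstance hn K x
  have hSR : ∀ y ∈ S, rR 0 y x := fun y hy => (HN_top K hK y x).1 (hSx y hy)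
  have hSS : ∀ y ∈ S, ∀ z ∈ S, rR 0 y z := fun y hy z hz =>
    (f.eqv 0).trans (hSR y hy) ((f.eqv 0).symm (hSR z hz))
  obtain ⟨w, e, hinj, hran, hR, hV⟩ := hCode N f K S hSf hSS
  have heS : ∀ i, e i ∈ S := fun i => hran ▸ Set.mem_range_self i
  obtain ⟨i0, hi0⟩ : ∃ i0, e i0 = s0 := by
    have : s0 ∈ Set.range e := hran ▸ hs0
    exact this
  -- the good copies
  have hgood : ∀ q : ℕ, (∀ c ∈ F, c.1 ≠ (q, w)) →
      ty (HN K) (colN K F) n Set.univ K (cEl ⟨(q, w), i0⟩) =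
        ty (HN K) (colN K F) n Set.univ K x := by
    intro q hq
    set S' : Set CS := {y | ∃ i, y = cEl ⟨(q, w), i⟩} with hS'
    classical
    set g : CS → N := fun y => if h : ∃ i, y = cEl ⟨(q, w), i⟩ then e h.choose else s0 with hg
    have hcinj : ∀ i i' : Fin w.length, cEl ⟨(q, w), i⟩ = cEl ⟨(q, w), i'⟩ → i = i' := by
      intro i i' h
      have h1 := congrArg Subtype.val h
      simp only [cEl, Sum.inl.injEq] at h1
      have h2 := (Sigma.mk.inj_iff.1 h1).2
      exact eq_of_heq h2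
    have hgi : ∀ i, g (cEl ⟨(q, w), i⟩) = e i := by
      intro i
      have h : ∃ i', cEl ⟨(q, w), i⟩ = cEl ⟨(q, w), i'⟩ := ⟨i, rfl⟩
      simp only [hg]
      rw [dif_pos h]
      exact congrArg e (hcinj _ _ h.choose_spec).symm
    have hmaps : Set.MapsTo g S' S := by
      rintro y ⟨i, rfl⟩
      rw [hgi]; exact heS i
    have hsurj : Set.SurjOn g S' S := by
      intro s hs
      have : s ∈ Set.range e := hran ▸ hs
      obtain ⟨i, rfl⟩ := this
      exact ⟨_, ⟨i, rfl⟩, hgi i⟩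
    have hrel : ∀ y ∈ S', ∀ y' ∈ S', ∀ h, h ≤ K → (HN K h (g y) (g y') ↔ HN K h y y') := by
      rintro y ⟨i, rfl⟩ y' ⟨i', rfl⟩ h hh
      rw [hgi, hgi]
      unfold HN
      by_cases h0 : h = 0
      · rw [if_pos h0, if_pos h0]
        constructor
        · intro h1; rw [hinj h1]
        · intro h1; rw [hcinj _ _ h1]
      · rw [if_neg h0, if_neg h0, if_pos hh, if_pos hh]
        exact (hR q i i' (K - h) (by omega)).symm
    have hcol : ∀ y ∈ S', colN K F (g y) = colN K F y := by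
      rintro y ⟨i, rfl⟩
      rw [hgi]
      unfold colN
      refine Prod.ext ?_ ?_
      · funext k
        exact propext (hV q i k.1 k.2).symm
      · funext c
        refine propext ⟨fun h => ?_, fun h => ?_⟩
        · exfalso
          have h1 : e i = f.u c.1 := (f.hu c.1 (e i)).1 h
          exact hx c.1 (h1 ▸ hSR _ (heS i))
        · exfalso
          have h1 : (Sum.inl (⟨(q, w), i⟩ : C0) : Big) = Sum.inl c.1 := h
          have h2 := Sum.inl.inj h1
          exact hq c.1 c.2 (by rw [← h2])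
    have h1 := hTrans hImg hCls N CS ((Fin K → Prop) × (F → Prop)) (HN K) (colN K F) (HN K)
      (colN K F) n K S S' g hsN hsC hmaps hsurj hrel hcol K le_rfl (cEl ⟨(q, w), i0⟩) ⟨i0, rfl⟩
    have h2 := hLoc hCls CS ((Fin K → Prop) × (F → Prop)) (HN K) (colN K F) n Set.univ S' hsC K
      (cEl ⟨(q, w), i0⟩) (by
        intro y hy
        refine ⟨fun _ => ?_, fun _ => trivial⟩
        obtain ⟨y1, c, rfl⟩ := y
        have h3 := (rR_CS 0 _ _).1 ((HN_top K hK _ _).1 hy)
        have h4 : (some c.1 : Option (ℕ × Code)) = some (q, w) := h3.1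
        have h5 : c.1 = (q, w) := Option.some.inj h4
        obtain ⟨p, i⟩ := c
        simp only at h5
        subst h5
        exact ⟨i, rfl⟩)
    have h3 := hInv N ((Fin K → Prop) × (F → Prop)) (HN K) (colN K F) n S hsN K (e i0) x
      (hSx _ (heS i0))
    rw [h2, ← h1, hgi, h3, hSty]
  -- infinitely many
  have hinf : {q : ℕ | ∀ c ∈ F, c.1 ≠ (q, w)}.Infinite := by
    have hfin : {q : ℕ | ∀ c ∈ F, c.1 ≠ (q, w)}ᶜ.Finite := by
      refine ((F.finite_toSet).image (fun c => c.1.1)).subset ?_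
      intro q hq
      simp only [Set.mem_compl_iff, Set.mem_setOf_eq, not_forall, not_not] at hq
      obtain ⟨c, hc, h⟩ := hq
      exact ⟨c, hc, by show c.fst.1 = q; rw [h]⟩
    intro hfin2
    exact Set.infinite_univ (by rw [← Set.union_compl_self {q : ℕ | ∀ c ∈ F, c.1 ≠ (q, w)}]; exact hfin2.union hfin)
  have himg := hinf.image (f := fun q : ℕ => {z : CS | HN K K z (cEl ⟨(q, w), i0⟩)}) (by
    intro q _ q' _ h
    have h1 : cEl ⟨(q, w), i0⟩ ∈ {z : CS | HN K K z (cEl ⟨(q, w), i0⟩)} := (hsC.eqv K).refl _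
    have h' : {z : CS | HN K K z (cEl ⟨(q, w), i0⟩)} = {z : CS | HN K K z (cEl ⟨(q', w), i0⟩)} := h
    rw [h'] at h1
    have h3 := (rR_CS 0 _ _).1 ((HN_top K hK _ _).1 h1)
    have h4 : (some (q, w) : Option (ℕ × Code)) = some (q', w) := h3.1
    have h5 := Option.some.inj h4
    exact (Prod.mk.inj h5).1)
  refine himg.mono ?_
  rintro _ ⟨q, hq, rfl⟩
  exact ⟨cEl ⟨(q, w), i0⟩, hgood q hq, rfl⟩

end H313UT
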