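import Pool.Agent.H313UT.Stmts
open FirstOrder FirstOrder.Language
namespace H313UT
theorem TaskCount_proofB : TaskCount := by
  intro tImg tCls tInv X Y κ H col H' col' n g m a b hH hH' hmn x y0 hty hJ hab htyab hx
  set t := ty H col n Set.univ g x with ht
  let J : Set (Fin m) := {j | H (g + 1) (a j) x ∧ ty H col n Set.univ g (a j) = t}
  let cX : X → Set X := fun z => {w | H g w z}
  let cY : Y → Set Y := fun z => {w | H' g w z}
  have h1 : ((fun j => cX (a j)) '' J).encard = ((fun j => cY (b j)) '' J).encard := by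
    refine tImg _ _ _ J _ _ fun i _ j _ => ?_
    have e1 := (tCls X H hH).2 g (a i) (a j)
    have e2 := (tCls Y H' hH').2 g (b i) (b j)
    change ({z | H g z (a i)} = {z | H g z (a j)}) ↔ ({z | H' g z (b i)} = {z | H' g z (b j)})
    rw [e1, e2]
    exact hab i j
  have hfin : ((fun j => cX (a j)) '' J).Finite := (Set.toFinite J).image _
  set s := ((fun j => cX (a j)) '' J).ncard with hs
  have hs' : ((fun j => cX (a j)) '' J).encard = s := (hfin.cast_ncard_eq).symm
  have hsm : s ≤ m := by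
    have h2 : ((fun j => cX (a j)) '' J).ncard ≤ J.ncard := Set.ncard_image_le (Set.toFinite J)
    have h3 : J.ncard ≤ (Set.univ : Set (Fin m)).ncard := Set.ncard_le_ncard (Set.subset_univ _) Set.finite_univ
    rw [Set.ncard_univ, Nat.card_eq_fintype_card, Fintype.card_fin] at h3
    omega
  let A : Set (Set X) := cX '' {y | y ∈ Set.univ ∧ H (g + 1) y x ∧ ty H col n Set.univ g y = t}
  let B : Set (Set Y) := cY '' {y | y ∈ Set.univ ∧ H' (g + 1) y y0 ∧ ty H' col' n Set.univ g y = t}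
  have hA : ((s + 1 : ℕ) : ℕ∞) ≤ A.encard := by
    have hni : cX x ∉ (fun j => cX (a j)) '' J := by
      rintro ⟨j, hj, hj'⟩
      exact hx j (((tCls X H hH).2 g (a j) x).1 hj')
    have hsub : insert (cX x) ((fun j => cX (a j)) '' J) ⊆ A := by
      refine Set.insert_subset ?_ ?_
      · exact ⟨x, ⟨trivial, (hH.eqv _).refl x, rfl⟩, rfl⟩
      · rintro _ ⟨j, hj, rfl⟩
        exact ⟨a j, ⟨trivial, hj.1, hj.2⟩, rfl⟩
    calc ((s + 1 : ℕ) : ℕ∞) = (insert (cX x) ((fun j => cX (a j)) '' J)).encard := by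
          rw [Set.encard_insert_of_notMem hni, hs']; rfl
      _ ≤ A.encard := Set.encard_le_encard hsub
  have hB : ((s + 1 : ℕ) : ℕ∞) ≤ B.encard := by
    have h2 := congrFun (congrFun hty t) (⟨s + 1, by omega⟩ : Fin (n + 1))
    exact (iff_of_eq h2).1 hA
  have hne : ¬ (B ⊆ (fun j => cY (b j)) '' J) := by
    intro hsub
    have h2 := (hB.trans (Set.encard_le_encard hsub)).trans_eq (h1.symm.trans hs')
    have h3 : s + 1 ≤ s := by exact_mod_cast h2
    omega
  rw [Set.not_subset] at hne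
  obtain ⟨_, ⟨y, ⟨-, hy1, hy2⟩, rfl⟩, hy3⟩ := hne
  refine ⟨y, hy1, hy2, fun j hj => hy3 ⟨j, ⟨?_, ?_⟩, ((tCls Y H' hH').2 g (b j) y).2 hj⟩⟩
  · exact (hJ j).2 ((hH'.eqv _).trans (hH'.mono _ _ _ hj) hy1)
  · rw [htyab j, tInv Y κ H' col' n Set.univ hH' g (b j) y hj]
    exact hy2
end H313UT
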