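import Pool.Agent.H313UT.Stmts

/-! # `TaskDesc` -/

set_option linter.unusedVariables false

namespace H313UT

theorem TaskDesc_proof : TaskDesc := by
  intro _ hInv X Y κ H col H' col' n hH hH' hn g
  induction g with
  | zero =>
    intro x y hxy
    refine ⟨y, (hH'.eqv 0).refl y, fun h hh => ?_⟩
    obtain rfl : h = 0 := Nat.le_zero.1 hh
    exact hxy
  | succ g ih =>
    intro x y hxy
    have h1 := congrFun (congrFun hxy (ty H col n Set.univ g x)) ⟨1, by omega⟩
    have hL : (((⟨1, by omega⟩ : Fin (n + 1)) : ℕ) : ℕ∞) ≤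
        ((fun y => {z | H g z y}) '' {y | y ∈ (Set.univ : Set X) ∧ H (g + 1) y x ∧
          ty H col n Set.univ g y = ty H col n Set.univ g x}).encard := by
      have h2 : ((fun y => {z | H g z y}) '' {y | y ∈ (Set.univ : Set X) ∧ H (g + 1) y x ∧
          ty H col n Set.univ g y = ty H col n Set.univ g x}).Nonempty :=
        ⟨_, x, ⟨Set.mem_univ x, (hH.eqv (g + 1)).refl x, rfl⟩, rfl⟩
      have h3 := Set.one_le_encard_iff_nonempty.2 h2
      simpa using h3
    have hR : (((⟨1, by omega⟩ : Fin (n + 1)) : ℕ) : ℕ∞) ≤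
        ((fun y => {z | H' g z y}) '' {y₁ | y₁ ∈ (Set.univ : Set Y) ∧ H' (g + 1) y₁ y ∧
          ty H' col' n Set.univ g y₁ = ty H col n Set.univ g x}).encard := Eq.mp h1 hL
    have h4 : ((fun y => {z | H' g z y}) '' {y₁ | y₁ ∈ (Set.univ : Set Y) ∧ H' (g + 1) y₁ y ∧
        ty H' col' n Set.univ g y₁ = ty H col n Set.univ g x}).Nonempty := by
      apply Set.one_le_encard_iff_nonempty.1
      simpa using hR
    obtain ⟨_, y₁, ⟨_, hy1, hy2⟩, _⟩ := h4
    obtain ⟨y', hy', h5⟩ := ih x y₁ hy2.symm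
    have h6 : H' (g + 1) y' y := (hH'.eqv (g + 1)).trans (hH'.mono g y' y₁ hy') hy1
    refine ⟨y', h6, fun h hh => ?_⟩
    rcases Nat.lt_or_ge h (g + 1) with h7 | h7
    · exact h5 h (by omega)
    · obtain rfl : h = g + 1 := le_antisymm hh h7
      exact hxy.trans (hInv Y κ H' col' n Set.univ hH' (g + 1) y' y h6).symm

end H313UT
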