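import Pool.Agent.H313UT.Stmts

/-! UT.TaskEx2 (author: helper119). -/

open FirstOrder FirstOrder.Language

namespace H313UT

theorem ex2_qU {m : ℕ} (c : C0) (i : Fin m) : (fU c i).IsQF :=
  (BoundedFormula.IsAtomic.rel _ _).isQF

theorem ex2_qV {m : ℕ} (k : ℕ) (i : Fin m) : (fV k i).IsQF :=
  (BoundedFormula.IsAtomic.rel _ _).isQF

theorem ex2_qR {m : ℕ} (j : ℕ) (i i' : Fin m) : (fR j i i').IsQF :=
  (BoundedFormula.IsAtomic.rel _ _).isQF

theorem ex2_disj {m : ℕ} : ∀ l : List (LL.BoundedFormula Empty m), (∀ φ ∈ l, φ.IsQF) → (disj l).IsQF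
  | [], _ => BoundedFormula.isQF_bot
  | φ :: l, h => (h φ (List.mem_cons_self ..)).sup
      (ex2_disj l fun ψ hψ => h ψ (List.mem_cons_of_mem _ hψ))

theorem ex2_q1 {m : ℕ} {φ : LL.BoundedFormula Empty m} (h : φ.IsQF) : Blk true 1 φ :=
  Blk.step (Blk.qf h)

theorem TaskEx2_proof : TaskEx2 := by
  intro φ h
  cases h with
  | name c =>
    refine Blk.ex (Blk.step (Blk.all (ex2_q1 ?_)))
    have h1 : ((Term.var (.inr (1 : Fin 2)) : LL.Term (Empty ⊕ Fin 2)).bdEqual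
        (Term.var (.inr (0 : Fin 2)))).IsQF := (BoundedFormula.IsAtomic.equal _ _).isQF
    exact ((ex2_qU c 1).imp h1).inf (h1.imp (ex2_qU c 1))
  | disjoint c c' h => exact Blk.step (Blk.all (ex2_q1 ((ex2_qU c 0).imp (ex2_qU c' 0).not)))
  | relPos c c' j h =>
    exact Blk.step (Blk.all (Blk.all (ex2_q1 ((ex2_qU c 0).imp ((ex2_qU c' 1).imp (ex2_qR j 0 1))))))
  | relNeg c c' j h =>
    exact Blk.step (Blk.all (Blk.all (ex2_q1
      ((ex2_qU c 0).imp ((ex2_qU c' 1).imp (ex2_qR j 0 1).not)))))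
  | colPos c k h => exact Blk.step (Blk.all (ex2_q1 ((ex2_qU c 0).imp (ex2_qV k 0))))
  | colNeg c k h => exact Blk.step (Blk.all (ex2_q1 ((ex2_qU c 0).imp (ex2_qV k 0).not)))
  | refl j => exact Blk.step (Blk.all (ex2_q1 (ex2_qR j 0 0)))
  | symm j => exact Blk.step (Blk.all (Blk.all (ex2_q1 ((ex2_qR j 0 1).imp (ex2_qR j 1 0)))))
  | trans j =>
    exact Blk.step (Blk.all (Blk.all (Blk.all (ex2_q1
      ((ex2_qR j 0 1).imp ((ex2_qR j 1 2).imp (ex2_qR j 0 2)))))))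
  | nest j => exact Blk.step (Blk.all (Blk.all (ex2_q1 ((ex2_qR (j + 1) 0 1).imp (ex2_qR j 0 1)))))
  | closed c =>
    refine Blk.step (Blk.all (Blk.all (ex2_q1 ((ex2_qU c 0).imp ((ex2_qR 0 0 1).imp
      (ex2_disj _ ?_))))))
    intro ψ hψ
    obtain ⟨c', -, rfl⟩ := List.mem_map.1 hψ
    exact ex2_qU c' 1

end H313UT
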