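import Pool.Agent.H313UT.Stmts

open FirstOrder FirstOrder.Language

set_option linter.unusedVariables false

namespace H313UT

theorem fin_sub {α : Type} (A : Set α) (n : ℕ) : ∃ G : Set α, G ⊆ A ∧ G.Finite ∧
    ∀ m : ℕ, m ≤ n → ((m : ℕ∞) ≤ G.encard ↔ (m : ℕ∞) ≤ A.encard) := by
  by_cases h : A.encard ≤ (n : ℕ∞)
  · exact ⟨A, le_refl _, Set.finite_of_encard_le_coe h, fun m _ => Iff.rfl⟩
  · rw [not_le] at h
    obtain ⟨G, hG, hc⟩ := Set.exists_subset_encard_eq h.le
    refine ⟨G, hG, Set.finite_of_encard_le_coe hc.le, fun m hm => ?_⟩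
    have h1 : (m : ℕ∞) ≤ (n : ℕ∞) := by exact_mod_cast hm
    rw [hc]
    exact ⟨fun _ => h1.trans h.le, fun _ => h1⟩

theorem TaskFin_proof : TaskFin := by
  intro hCls hInv hLoc hTy X κ H col n hH hκ hn h
  induction h with
  | zero =>
    intro x
    exact ⟨{x}, Set.finite_singleton x, Set.singleton_nonempty x,
      fun y hy => by rw [Set.mem_singleton_iff.1 hy]; exact (hH.eqv 0).refl x, rfl⟩
  | succ h ih =>
    intro x
    choose Sy hfin hne hsub hty using ih
    haveI : Finite (Ty κ n h) := hTy κ n hκ h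
    have hcls := (hCls X H hH).2
    have hG : ∀ t : Ty κ n h, ∃ G : Set (Set X), G ⊆ ((fun y => {z | H h z y}) ''
        {y | y ∈ (Set.univ : Set X) ∧ H (h + 1) y x ∧ ty H col n Set.univ h y = t}) ∧ G.Finite ∧
        ∀ m : ℕ, m ≤ n → ((m : ℕ∞) ≤ G.encard ↔ (m : ℕ∞) ≤ ((fun y => {z | H h z y}) ''
        {y | y ∈ (Set.univ : Set X) ∧ H (h + 1) y x ∧ ty H col n Set.univ h y = t}).encard) :=
      fun t => fin_sub _ n
    choose G hGs hGf hGm using hG
    have hrep : ∀ (t : Ty κ n h) (c : G t), ∃ y, H (h + 1) y x ∧ ty H col n Set.univ h y = t ∧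
        {z | H h z y} = c.1 := by
      rintro t ⟨c, hc⟩
      obtain ⟨y, ⟨_, h1, h2⟩, h3⟩ := hGs t hc
      exact ⟨y, h1, h2, h3⟩
    choose r hr1 hr2 hr3 using hrep
    set S : Set X := ⋃ t : Ty κ n h, ⋃ c : G t, Sy (r t c) with hS
    have hmem : ∀ y, y ∈ S ↔ ∃ (t : Ty κ n h) (c : G t), y ∈ Sy (r t c) := by
      intro y
      rw [hS]
      simp only [Set.mem_iUnion]
    have hup : ∀ y ∈ S, H (h + 1) y x := by
      intro y hy
      obtain ⟨t, c, hy⟩ := (hmem y).1 hy
      exact (hH.eqv (h + 1)).trans (hH.mono h _ _ (hsub _ y hy)) (hr1 t c)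
    -- types of elements of `S`
    have hSty : ∀ (t : Ty κ n h) (c : G t), ty H col n S h (r t c) = t := by
      intro t c
      rw [hLoc hCls X κ H col n S (Sy (r t c)) hH h (r t c), hty, hr2]
      intro z hz
      constructor
      · intro hzS
        obtain ⟨t', c', hz'⟩ := (hmem z).1 hzS
        have h1 : H h z (r t' c') := hsub _ z hz'
        have h2 : H h (r t' c') (r t c) := (hH.eqv h).trans ((hH.eqv h).symm h1) hz
        have h3 : t' = t := by
          rw [← hr2 t c, ← hr2 t' c']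
          exact hInv X κ H col n Set.univ hH h _ _ h2
        subst h3
        have h4 : c' = c := by
          apply Subtype.ext
          rw [← hr3 t' c', ← hr3 t' c]
          exact (hcls h _ _).2 h2
        subst h4
        exact hz'
      · intro hz'
        exact (hmem z).2 ⟨t, c, hz'⟩
    have hSty' : ∀ (t : Ty κ n h) (c : G t), ∀ y ∈ Sy (r t c), ty H col n S h y = t := by
      intro t c y hy
      rw [hInv X κ H col n S hH h y (r t c) (hsub _ y hy)]
      exact hSty t c
    have hScls : ∀ (t : Ty κ n h) (c : G t), ∀ y ∈ Sy (r t c), {z | H h z y} = c.1 := by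
      intro t c y hy
      rw [← hr3 t c]
      exact (hcls h _ _).2 (hsub _ y hy)
    refine ⟨S, ?_, ?_, hup, ?_⟩
    · apply Set.finite_iUnion
      intro t
      haveI : Finite (G t) := (hGf t).to_subtype
      exact Set.finite_iUnion fun c => hfin _
    · set t0 := ty H col n Set.univ h x with ht0
      have h1 : ((1 : ℕ) : ℕ∞) ≤ ((fun y => {z | H h z y}) ''
          {y | y ∈ (Set.univ : Set X) ∧ H (h + 1) y x ∧ ty H col n Set.univ h y = t0}).encard := by
        rw [Nat.cast_one, Set.one_le_encard_iff_nonempty]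
        exact ⟨_, x, ⟨Set.mem_univ _, (hH.eqv (h + 1)).refl x, rfl⟩, rfl⟩
      have h2 := (hGm t0 1 hn).2 h1
      rw [Nat.cast_one, Set.one_le_encard_iff_nonempty] at h2
      obtain ⟨c, hc⟩ := h2
      obtain ⟨y, hy⟩ := hne (r t0 ⟨c, hc⟩)
      exact ⟨y, (hmem y).2 ⟨t0, ⟨c, hc⟩, hy⟩⟩
    · funext t m
      have hB : ((fun y => {z | H h z y}) '' {y | y ∈ S ∧ H (h + 1) y x ∧ ty H col n S h y = t}) =
          G t := by
        ext c
        constructor
        · rintro ⟨y, ⟨hyS, _, hyt⟩, rfl⟩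
          obtain ⟨t', c', hy⟩ := (hmem y).1 hyS
          have h1 : t' = t := by rw [← hyt, hSty' t' c' y hy]
          subst h1
          show {z | H h z y} ∈ G t'
          rw [hScls t' c' y hy]
          exact c'.2
        · intro hc
          obtain ⟨y, hy⟩ := hne (r t ⟨c, hc⟩)
          have hyS : y ∈ S := (hmem y).2 ⟨t, ⟨c, hc⟩, hy⟩
          exact ⟨y, ⟨hyS, hup y hyS, hSty' t ⟨c, hc⟩ y hy⟩, hScls t ⟨c, hc⟩ y hy⟩
      show ((((m : ℕ) : ℕ∞)) ≤ ((fun y => {z | H h z y}) ''
        {y | y ∈ S ∧ H (h + 1) y x ∧ ty H col n S h y = t}).encard) = _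
      rw [hB]
      exact propext (hGm t m (Nat.lt_succ_iff.1 m.2))

end H313UT
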