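import Pool.Agent.H313UT.Stmts

open FirstOrder FirstOrder.Language

set_option linter.unusedVariables false

namespace H313UT

private theorem forth_snoc {X Y κ : Type} {H : ℕ → X → X → Prop} {col : X → κ}
    {H' : ℕ → Y → Y → Prop} {col' : Y → κ} {n top m : ℕ} {a : Fin m → X} {b : Fin m → Y}
    (hH : HSys H) (hH' : HSys H') (hP : Pos H col H' col' n top a b) (x : X) (y : Y)
    (hr : ∀ i h, h ≤ top → (H h (a i) x ↔ H' h (b i) y))
    (ht : ∀ h, h ≤ top → ty H col n Set.univ h x = ty H' col' n Set.univ h y) :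
    Pos H col H' col' n top (Fin.snoc a x : Fin (m + 1) → X) (Fin.snoc b y : Fin (m + 1) → Y) := by
  constructor
  · intro i j h hh
    refine Fin.lastCases ?_ (fun i => ?_) i
    · refine Fin.lastCases ?_ (fun j => ?_) j
      · rw [Fin.snoc_last, Fin.snoc_last]
        exact ⟨fun _ => (hH'.eqv h).refl y, fun _ => (hH.eqv h).refl x⟩
      · rw [Fin.snoc_last, Fin.snoc_last, Fin.snoc_castSucc, Fin.snoc_castSucc]
        exact ⟨fun h1 => (hH'.eqv h).symm ((hr j h hh).1 ((hH.eqv h).symm h1)),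
          fun h1 => (hH.eqv h).symm ((hr j h hh).2 ((hH'.eqv h).symm h1))⟩
    · refine Fin.lastCases ?_ (fun j => ?_) j
      · rw [Fin.snoc_last, Fin.snoc_last, Fin.snoc_castSucc, Fin.snoc_castSucc]
        exact hr i h hh
      · rw [Fin.snoc_castSucc, Fin.snoc_castSucc, Fin.snoc_castSucc, Fin.snoc_castSucc]
        exact hP.rel i j h hh
  · intro i h hh
    refine Fin.lastCases ?_ (fun i => ?_) i
    · rw [Fin.snoc_last, Fin.snoc_last]
      exact ht h hh
    · rw [Fin.snoc_castSucc, Fin.snoc_castSucc]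
      exact hP.typ i h hh

private theorem forth_img : TaskImg := by
  intro α β γ P u v h
  have h1 : u '' P = Prod.fst '' ((fun a => (u a, v a)) '' P) := by
    rw [Set.image_image]
  have h2 : v '' P = Prod.snd '' ((fun a => (u a, v a)) '' P) := by
    rw [Set.image_image]
  have e1 : Set.InjOn Prod.fst ((fun a => (u a, v a)) '' P) := by
    rintro _ ⟨a, ha, rfl⟩ _ ⟨b, hb, rfl⟩ hab
    exact Prod.ext hab ((h a ha b hb).1 hab)
  have e2 : Set.InjOn Prod.snd ((fun a => (u a, v a)) '' P) := by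
    rintro _ ⟨a, ha, rfl⟩ _ ⟨b, hb, rfl⟩ hab
    exact Prod.ext ((h a ha b hb).2 hab) hab
  rw [h1, h2, e1.encard_image, e2.encard_image]

theorem TaskForth_proof : TaskForth := by
  classical
  intro hCls hInv hDesc hCount X Y κ H col H' col' n top m a b hH hH' hTop hTop' hTy hY hmn hP x
  have mono := (hCls X H hH).1
  have mono' := (hCls Y H' hH').1
  have inv := hInv X κ H col n Set.univ hH
  have inv' := hInv Y κ H' col' n Set.univ hH'
  have hex : ∃ g, g = top ∨ ∃ i, H g (a i) x := ⟨top, Or.inl rfl⟩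
  have hspec := Nat.find_spec hex
  have hmin : ∀ g, g < Nat.find hex → ¬ (g = top ∨ ∃ i, H g (a i) x) := fun g hg => Nat.find_min hex hg
  have hle : Nat.find hex ≤ top := Nat.find_min' hex (Or.inl rfl)
  generalize Nat.find hex = g0 at hspec hmin hle
  -- the upper part
  have hup : ∃ y0, ∀ h, g0 ≤ h → h ≤ top → (ty H col n Set.univ h x = ty H' col' n Set.univ h y0 ∧
      ∀ j, (H h (a j) x ↔ H' h (b j) y0)) := by
    rcases hspec with h1 | ⟨i0, h1⟩
    · obtain ⟨y0⟩ := hY
      refine ⟨y0, fun h hh1 hh2 => ?_⟩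
      obtain rfl : h = top := by omega
      exact ⟨hTy x y0, fun j => ⟨fun _ => hTop' _ _, fun _ => hTop _ _⟩⟩
    · refine ⟨b i0, fun h hh1 hh2 => ?_⟩
      have h2 : H h (a i0) x := mono g0 h _ _ hh1 h1
      refine ⟨?_, fun j => ?_⟩
      · rw [← inv h _ _ h2]
        exact hP.typ i0 h hh2
      · rw [← hP.rel j i0 h hh2]
        exact ⟨fun h3 => (hH.eqv h).trans h3 ((hH.eqv h).symm h2), fun h3 => (hH.eqv h).trans h3 h2⟩
  obtain ⟨y0, hy0⟩ := hup
  cases g0 with
  | zero =>
    refine ⟨y0, forth_snoc hH hH' hP x y0 (fun i h hh => ?_) (fun h hh => ?_)⟩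
    · exact (hy0 h (Nat.zero_le _) hh).2 i
    · exact (hy0 h (Nat.zero_le _) hh).1
  | succ g =>
    have hg := hmin g (Nat.lt_succ_self g)
    have hno : ∀ j, ¬ H g (a j) x := fun j hj => hg (Or.inr ⟨j, hj⟩)
    have h1 := hy0 (g + 1) le_rfl hle
    obtain ⟨y1, hy1, hty1, hno1⟩ := hCount forth_img hCls hInv X Y κ H col H' col' n g m a b hH hH' hmn x y0 h1.1 h1.2
      (fun i j => hP.rel i j g (by omega)) (fun j => hP.typ j g (by omega)) hno
    obtain ⟨y2, hy2, hty2⟩ := hDesc hCls hInv X Y κ H col H' col' n hH hH' (by omega) g x y1 hty1.symm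
    have h20 : H' (g + 1) y2 y0 := (hH'.eqv (g + 1)).trans (mono' g (g + 1) _ _ (Nat.le_succ g) hy2) hy1
    refine ⟨y2, forth_snoc hH hH' hP x y2 (fun i h hh => ?_) (fun h hh => ?_)⟩
    · rcases Nat.lt_or_ge g h with h3 | h3
      · have h4 := (hy0 h h3 hh).2 i
        have h5 : H' h y2 y0 := mono' (g + 1) h _ _ h3 h20
        rw [h4]
        exact ⟨fun h6 => (hH'.eqv h).trans h6 ((hH'.eqv h).symm h5), fun h6 => (hH'.eqv h).trans h6 h5⟩
      · constructor
        · intro h4
          exact absurd (mono h g _ _ h3 h4) (hno i)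
        · intro h4
          exact absurd ((hH'.eqv g).trans (mono' h g _ _ h3 h4) hy2) (hno1 i)
    · rcases Nat.lt_or_ge g h with h3 | h3
      · rw [(hy0 h h3 hh).1]
        exact (inv' h _ _ (mono' (g + 1) h _ _ h3 h20)).symm
      · exact hty2 h h3

end H313UT
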