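import Pool.Agent.H313UT.Stmts

open FirstOrder FirstOrder.Language

set_option linter.unusedVariables false

namespace H313UT

namespace TG0

/-- The value of a term: the constant `star` or a variable. -/
def val {ρ : ℕ → Bool} {m : ℕ} (a : Fin m → NS ρ) : Option (Fin m) → NS ρ
  | none => star ρ
  | some i => a i

theorem term_val {m : ℕ} (t : LL[[Fin 1]].Term (Empty ⊕ Fin m)) :
    ∃ o : Option (Fin m), ∀ (ρ : ℕ → Bool) (a : Fin m → NS ρ),
      t.realize (Sum.elim (default : Empty → NS ρ) a) = val a o := by
  cases t with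
  | var i =>
    rcases i with e | i
    · exact e.elim
    · exact ⟨some i, fun ρ a => rfl⟩
  | func f ts =>
    rename_i l
    rcases f with f | f
    · exact Empty.elim f
    · cases l with
      | zero => exact ⟨none, fun ρ a => rfl⟩
      | succ l => exact PEmpty.elim f

theorem bR_symm {j : ℕ} {x y : Big} : bR j x y ↔ bR j y x :=
  ⟨fun h => ⟨h.1.symm, fun r hr => (h.2 r hr).symm⟩, fun h => ⟨h.1.symm, fun r hr => (h.2 r hr).symm⟩⟩

theorem bR_K (κ : ℕ) (s s' : ℕ → ℕ × Bool) (j : ℕ) :
    bR j (.inr (κ, s)) (.inr (κ, s')) ↔ ∀ r < j - 1, s r = s' r := by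
  constructor
  · rintro ⟨_, h⟩ r hr
    exact h (r + 1) (by omega)
  · intro h
    refine ⟨rfl, ?_⟩
    intro r hr
    cases r with
    | zero => rfl
    | succ r => exact h r (by omega)

theorem bR_mixed {κ j : ℕ} {x z : Big} (hx : inK κ x) (hz : ¬ inK κ z) :
    bR j x z ↔ (comp z = none ∧ j = 0) := by
  obtain ⟨s, rfl⟩ := hx
  rcases z with c | ⟨p, t⟩
  · constructor
    · rintro ⟨h, _⟩
      simp [comp] at h
    · rintro ⟨h, _⟩
      simp [comp] at h
  · have hp : p ≠ κ := by
      rintro rfl
      exact hz ⟨t, rfl⟩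
    constructor
    · rintro ⟨h, h'⟩
      refine ⟨rfl, ?_⟩
      by_contra hj
      have h0 := h' 0 (by omega)
      have : ((κ, true) : ℕ × Bool) = (p, true) := h0
      exact hp (Prod.mk.inj this).1.symm
    · rintro ⟨_, rfl⟩
      exact ⟨rfl, fun r hr => absurd hr (Nat.not_lt_zero r)⟩

theorem main {κ : ℕ} {ρ ρ' : ℕ → Bool} {d : Bool} {n m : ℕ} {a : Fin m → NS ρ}
    {b : Fin m → NS ρ'} (hG : GP κ ρ ρ' d n m a b) (φ : LL[[Fin 1]].BoundedFormula Empty m)
    (hφ : φ.IsQF) : (φ.Realize default a ↔ φ.Realize default b) := by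
  have hκ : 1 ≤ κ := le_trans (Nat.le_add_left 1 n) hG.big
  have hst : ∀ ρ : ℕ → Bool, ¬ inK κ (star ρ).1 := by
    intro ρ
    rintro ⟨s, hs⟩
    have h1 : ((0 : ℕ), fun _ : ℕ => ((0 : ℕ), true)) = (κ, s) := Sum.inr.inj hs
    have h2 := (Prod.mk.inj h1).1
    omega
  have hsame : ∀ o, ¬ inK κ (val a o).1 → (val b o).1 = (val a o).1 := by
    intro o ho
    cases o with
    | none => rfl
    | some i => exact hG.same i ho
  have hin : ∀ o, inK κ (val a o).1 → inK κ (val b o).1 := by
    intro o ho
    cases o with
    | none => exact absurd ho (hst ρ)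
    | some i => exact hG.same' i ho
  have hag : ∀ o o', inK κ (val a o).1 → inK κ (val a o').1 → ∀ l,
      (∀ r < l, br (val a o).1 r = br (val a o').1 r) ↔
        (∀ r < l, br (val b o).1 r = br (val b o').1 r) := by
    intro o o' ho ho'
    cases o with
    | none => exact absurd ho (hst ρ)
    | some i =>
      cases o' with
      | none => exact absurd ho' (hst ρ)
      | some j => exact hG.agree i j ho ho'
  have hgd : ∀ o, inK κ (val a o).1 →
      ((br (val a o).1 (κ - 1)).2 = (br (val b o).1 (κ - 1)).2) := by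
    intro o ho
    cases o with
    | none => exact absurd ho (hst ρ)
    | some i =>
      have h := hG.good i ho κ le_rfl
      obtain ⟨k, rfl⟩ : ∃ k, κ = k + 1 := ⟨κ - 1, by omega⟩
      have key : ∀ t t' : Bool, Good (k + 1) n t t' (k + 1) → t = t' := by
        intro t t' hg
        rcases hg with hg | hg | hg
        · omega
        · omega
        · exact hg
      by_cases hd : d = true
      · rw [if_pos hd] at h
        exact key _ _ h
      · rw [if_neg hd] at h
        exact (key _ _ h).symm
  have heq : ∀ o o', (val a o = val a o' ↔ val b o = val b o') := by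
    intro o o'
    rw [Subtype.ext_iff, Subtype.ext_iff]
    by_cases h1 : inK κ (val a o).1
    · by_cases h2 : inK κ (val a o').1
      · have hA := hag o o' h1 h2
        obtain ⟨s, hs⟩ := h1
        obtain ⟨s', hs'⟩ := h2
        obtain ⟨t, ht⟩ := hin o ⟨s, hs⟩
        obtain ⟨t', ht'⟩ := hin o' ⟨s', hs'⟩
        rw [hs, hs', ht, ht'] at hA ⊢
        simp only [Sum.inr.injEq, Prod.mk.injEq, true_and]
        constructor
        · intro h
          funext r
          exact (hA (r + 1)).1 (fun r' _ => by rw [h]) r (Nat.lt_succ_self r)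
        · intro h
          funext r
          exact (hA (r + 1)).2 (fun r' _ => by rw [h]) r (Nat.lt_succ_self r)
      · have e2 := hsame o' h2
        have h3 := hin o h1
        constructor
        · intro h
          exact absurd (h ▸ h1) h2
        · intro h
          rw [e2] at h
          exact absurd (h ▸ h3) h2
    · by_cases h2 : inK κ (val a o').1
      · have e1 := hsame o h1
        have h3 := hin o' h2
        constructor
        · intro h
          exact absurd (h ▸ h2) h1
        · intro h
          rw [e1] at h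
          exact absurd (h ▸ h3) h1
      · rw [hsame o h1, hsame o' h2]
  have hR : ∀ o o' j, (bR j (val a o).1 (val a o').1 ↔ bR j (val b o).1 (val b o').1) := by
    intro o o' j
    by_cases h1 : inK κ (val a o).1
    · by_cases h2 : inK κ (val a o').1
      · have hA := hag o o' h1 h2
        obtain ⟨s, hs⟩ := h1
        obtain ⟨s', hs'⟩ := h2
        obtain ⟨t, ht⟩ := hin o ⟨s, hs⟩
        obtain ⟨t', ht'⟩ := hin o' ⟨s', hs'⟩
        rw [hs, hs', ht, ht'] at hA ⊢
        rw [bR_K, bR_K]
        exact hA (j - 1)
      · rw [bR_mixed h1 h2, hsame o' h2, bR_mixed (hin o h1) h2]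
    · by_cases h2 : inK κ (val a o').1
      · rw [bR_symm, bR_mixed h2 h1, hsame o h1, bR_symm, bR_mixed (hin o' h2) h1]
      · rw [hsame o h1, hsame o' h2]
  have hV : ∀ o k, (bV k (val a o).1 ↔ bV k (val b o).1) := by
    intro o k
    by_cases h1 : inK κ (val a o).1
    · have hA := hgd o h1
      obtain ⟨s, hs⟩ := h1
      obtain ⟨t, ht⟩ := hin o ⟨s, hs⟩
      rw [hs, ht] at hA ⊢
      cases k with
      | zero =>
        show (s (κ - 1)).2 = true ↔ (t (κ - 1)).2 = true
        have : (s (κ - 1)).2 = (t (κ - 1)).2 := hA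
        rw [this]
      | succ k => exact Iff.rfl
    · rw [hsame o h1]
  have hU : ∀ o (c : C0), ((val a o).1 = Sum.inl c ↔ (val b o).1 = Sum.inl c) := by
    intro o c
    by_cases h1 : inK κ (val a o).1
    · obtain ⟨s, hs⟩ := h1
      obtain ⟨t, ht⟩ := hin o ⟨s, hs⟩
      rw [hs, ht]
      simp
    · rw [hsame o h1]
  induction hφ with
  | falsum => exact Iff.rfl
  | of_isAtomic h =>
    cases h with
    | equal t₁ t₂ =>
      obtain ⟨o1, h1⟩ := term_val t₁
      obtain ⟨o2, h2⟩ := term_val t₂
      rw [BoundedFormula.realize_bdEqual, BoundedFormula.realize_bdEqual, h1, h1, h2, h2]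
      exact heq o1 o2
    | rel R ts =>
      choose o ho using fun i => term_val (ts i)
      have e1 : (fun i => (ts i).realize (Sum.elim (default : Empty → NS ρ) a)) =
          fun i => val a (o i) := funext fun i => ho i ρ a
      have e2 : (fun i => (ts i).realize (Sum.elim (default : Empty → NS ρ') b)) =
          fun i => val b (o i) := funext fun i => ho i ρ' b
      rw [BoundedFormula.realize_rel, BoundedFormula.realize_rel, e1, e2]
      rcases R with R | R
      · cases R with
        | U c => exact hU (o 0) c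
        | V k => exact hV (o 0) k
        | R j => exact hR (o 0) (o 1) j
      · exact Empty.elim R
  | imp h1 h2 ih1 ih2 =>
    rw [BoundedFormula.realize_imp, BoundedFormula.realize_imp]
    exact imp_congr ih1 ih2

end TG0

theorem TaskG0_proof : TaskG0 :=
  fun _ _ _ _ _ _ _ _ hG φ hφ => TG0.main hG φ hφ

end H313UT
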