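import Pool.Agent.H313UT.Stmts

open FirstOrder FirstOrder.Language

set_option autoImplicit false
set_option linter.unusedVariables false

namespace H313UT

private theorem memBr {κ : ℕ} {ρ : ℕ → Bool} (x : NS ρ) (h : inK κ x.1) : br x.1 ∈ Lf κ (ρ κ) := by
  obtain ⟨s, hs⟩ := h
  have h1 := x.2
  rw [hs] at h1 ⊢
  exact h1

theorem TaskG1_proof : TaskG1 := by
  intro hT κ ρ ρ' hρ n m a b hG x
  by_cases hx : inK κ x.1
  · obtain ⟨y, hy, hgood, hagree⟩ := hT κ (ρ κ) (ρ' κ) (n + 1) (Nat.le_add_left 1 n)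
      (Or.inl (by have := hG.big; omega)) {i // inK κ (a i).1} (fun i => br (a i.1).1)
      (fun i => br (b i.1).1) (fun i => memBr _ i.2) (fun i => memBr _ (hG.same' i.1 i.2))
      ⟨fun i l hl => by simpa using hG.good i.1 i.2 l hl,
        fun i j l => hG.agree i.1 j.1 i.2 j.2 l⟩ (br x.1) (memBr x hx)
    let y' : NS ρ' := ⟨.inr (κ, y), hy⟩
    have hbr : br y'.1 = y := rfl
    have hK : inK κ y'.1 := ⟨y, rfl⟩
    refine ⟨y', hG.big, fun i => ?_, fun i => ?_, fun i => ?_, fun i j => ?_⟩
    · refine Fin.lastCases ?_ (fun i => ?_) i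
      · rw [Fin.snoc_last]; exact fun h => absurd hx h
      · rw [Fin.snoc_castSucc, Fin.snoc_castSucc]; exact hG.same i
    · refine Fin.lastCases ?_ (fun i => ?_) i
      · rw [Fin.snoc_last, Fin.snoc_last]; exact fun _ => hK
      · rw [Fin.snoc_castSucc, Fin.snoc_castSucc]; exact hG.same' i
    · refine Fin.lastCases ?_ (fun i => ?_) i
      · rw [Fin.snoc_last, Fin.snoc_last]
        intro _ l hl
        rw [if_pos rfl, hbr]
        exact hgood l hl
      · rw [Fin.snoc_castSucc, Fin.snoc_castSucc]; exact hG.good i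
    · refine Fin.lastCases ?_ (fun i => ?_) i
      · refine Fin.lastCases ?_ (fun j => ?_) j
        · intro _ _ l; rw [Fin.snoc_last, Fin.snoc_last]
          exact ⟨fun _ _ _ => rfl, fun _ _ _ => rfl⟩
        · rw [Fin.snoc_last, Fin.snoc_last, Fin.snoc_castSucc, Fin.snoc_castSucc]
          intro _ hj l
          rw [hbr]
          exact hagree ⟨j, hj⟩ l
      · refine Fin.lastCases ?_ (fun j => ?_) j
        · rw [Fin.snoc_last, Fin.snoc_last, Fin.snoc_castSucc, Fin.snoc_castSucc]
          intro hi _ l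
          rw [hbr]
          have h := hagree ⟨i, hi⟩ l
          exact ⟨fun h' r hr => (h.1 (fun r hr => (h' r hr).symm) r hr).symm,
            fun h' r hr => (h.2 (fun r hr => (h' r hr).symm) r hr).symm⟩
        · rw [Fin.snoc_castSucc, Fin.snoc_castSucc, Fin.snoc_castSucc, Fin.snoc_castSucc]
          exact hG.agree i j
  · have hmem : x.1 ∈ NS ρ' := by
      have h1 := x.2
      rcases hx1 : x.1 with c | p
      · trivial
      · rw [hx1] at h1
        have hp : p.1 ≠ κ := fun hp => hx ⟨p.2, by rw [hx1, ← hp]⟩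
        show p.2 ∈ Lf p.1 (ρ' p.1)
        rw [← hρ p.1 hp]
        exact h1
    refine ⟨⟨x.1, hmem⟩, hG.big, fun i => ?_, fun i => ?_, fun i => ?_, fun i j => ?_⟩
    · refine Fin.lastCases ?_ (fun i => ?_) i
      · rw [Fin.snoc_last, Fin.snoc_last]; exact fun _ => rfl
      · rw [Fin.snoc_castSucc, Fin.snoc_castSucc]; exact hG.same i
    · refine Fin.lastCases ?_ (fun i => ?_) i
      · rw [Fin.snoc_last, Fin.snoc_last]; exact fun h => h
      · rw [Fin.snoc_castSucc, Fin.snoc_castSucc]; exact hG.same' i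
    · refine Fin.lastCases ?_ (fun i => ?_) i
      · rw [Fin.snoc_last]; exact fun h => absurd h hx
      · rw [Fin.snoc_castSucc, Fin.snoc_castSucc]; exact hG.good i
    · refine Fin.lastCases ?_ (fun i => ?_) i
      · rw [Fin.snoc_last]; exact fun h => absurd h hx
      · refine Fin.lastCases ?_ (fun j => ?_) j
        · rw [Fin.snoc_last]; exact fun _ h => absurd h hx
        · rw [Fin.snoc_castSucc, Fin.snoc_castSucc, Fin.snoc_castSucc, Fin.snoc_castSucc]
          exact hG.agree i j

end H313UT
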