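import Pool.Agent.H313UT.Stmts

/-! # `TaskG1b` (MP_ba14eb_lc): back for the game on `NS ρ`, `NS ρ'` -/

open FirstOrder FirstOrder.Language

set_option linter.unusedVariables false

namespace H313UT

namespace G1b

theorem mem_Lf {κ : ℕ} {ρ : ℕ → Bool} (z : NS ρ) (h : inK κ z.1) : br z.1 ∈ Lf κ (ρ κ) := by
  obtain ⟨s, hs⟩ := h
  have h2 : z.1 ∈ NS ρ := z.2
  rw [hs] at h2 ⊢
  exact h2

theorem mem_NS {κ : ℕ} {ρ ρ' : ℕ → Bool} (hρ : ∀ k, k ≠ κ → ρ k = ρ' k) (z : Big) (h : z ∈ NS ρ')
    (hz : ¬ inK κ z) : z ∈ NS ρ := by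
  rcases z with c | p
  · trivial
  · have hp : p.1 ≠ κ := by
      intro hp
      apply hz
      exact ⟨p.2, by rw [← hp]⟩
    have h' : p.2 ∈ Lf p.1 (ρ' p.1) := h
    rw [← hρ p.1 hp] at h'
    exact h'

end G1b

open G1b in
theorem TaskG1b_proof : TaskG1b := by
  intro hT κ ρ ρ' hρ n m a b hG y
  have hgood : ∀ i, inK κ (a i).1 → ∀ l, l ≤ κ →
      Good κ (n + 1) (typ (ρ' κ) (br (b i).1) l) (typ (ρ κ) (br (a i).1) l) l := by
    intro i hi l hl
    have := hG.good i hi l hl
    simpa using this
  by_cases hy : inK κ y.1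
  · -- the element is in sort `κ`
    have hyL := mem_Lf y hy
    obtain ⟨t, htL, htg, hta⟩ := hT κ (ρ' κ) (ρ κ) (n + 1) (Nat.succ_le_succ (Nat.zero_le n))
      (Or.inl (by have := hG.big; omega)) {i : Fin m // inK κ (a i).1}
      (fun i => br (b i.1).1) (fun i => br (a i.1).1)
      (fun i => mem_Lf (b i.1) (hG.same' i.1 i.2)) (fun i => mem_Lf (a i.1) i.2)
      ⟨fun i l hl => hgood i.1 i.2 l hl, fun i j l => (hG.agree i.1 j.1 i.2 j.2 l).symm⟩
      (br y.1) hyL
    refine ⟨⟨.inr (κ, t), htL⟩, ⟨hG.big, ?_, ?_, ?_, ?_⟩⟩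
    · intro i
      refine Fin.lastCases ?_ (fun i => ?_) i
      · intro h
        rw [Fin.snoc_last] at h
        exact absurd ⟨t, rfl⟩ h
      · rw [Fin.snoc_castSucc, Fin.snoc_castSucc]
        exact hG.same i
    · intro i
      refine Fin.lastCases ?_ (fun i => ?_) i
      · intro _
        rw [Fin.snoc_last]
        exact hy
      · rw [Fin.snoc_castSucc, Fin.snoc_castSucc]
        exact hG.same' i
    · intro i
      refine Fin.lastCases ?_ (fun i => ?_) i
      · intro _ l hl
        rw [Fin.snoc_last, Fin.snoc_last]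
        rw [if_neg Bool.false_ne_true]
        exact htg l hl
      · rw [Fin.snoc_castSucc, Fin.snoc_castSucc]
        exact hG.good i
    · intro i j
      refine Fin.lastCases ?_ (fun i => ?_) i
      · refine Fin.lastCases ?_ (fun j => ?_) j
        · intro _ _ l
          rw [Fin.snoc_last, Fin.snoc_last]
          exact ⟨fun _ _ _ => rfl, fun _ _ _ => rfl⟩
        · rw [Fin.snoc_castSucc, Fin.snoc_castSucc, Fin.snoc_last, Fin.snoc_last]
          intro _ hj l
          exact (hta ⟨j, hj⟩ l).symm
      · refine Fin.lastCases ?_ (fun j => ?_) j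
        · rw [Fin.snoc_castSucc, Fin.snoc_castSucc, Fin.snoc_last, Fin.snoc_last]
          intro hi _ l
          have h1 := (hta ⟨i, hi⟩ l).symm
          constructor
          · intro h r hr
            exact (h1.1 (fun r hr => (h r hr).symm) r hr).symm
          · intro h r hr
            exact (h1.2 (fun r hr => (h r hr).symm) r hr).symm
        · rw [Fin.snoc_castSucc, Fin.snoc_castSucc, Fin.snoc_castSucc, Fin.snoc_castSucc]
          exact hG.agree i j
  · -- the element is not in sort `κ`
    refine ⟨⟨y.1, mem_NS hρ y.1 y.2 hy⟩, ⟨hG.big, ?_, ?_, ?_, ?_⟩⟩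
    · intro i
      refine Fin.lastCases ?_ (fun i => ?_) i
      · intro _
        rw [Fin.snoc_last, Fin.snoc_last]
      · rw [Fin.snoc_castSucc, Fin.snoc_castSucc]
        exact hG.same i
    · intro i
      refine Fin.lastCases ?_ (fun i => ?_) i
      · rw [Fin.snoc_last, Fin.snoc_last]
        exact fun h => h
      · rw [Fin.snoc_castSucc, Fin.snoc_castSucc]
        exact hG.same' i
    · intro i
      refine Fin.lastCases ?_ (fun i => ?_) i
      · intro h
        rw [Fin.snoc_last] at h
        exact absurd h hy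
      · rw [Fin.snoc_castSucc, Fin.snoc_castSucc]
        exact hG.good i
    · intro i j
      refine Fin.lastCases ?_ (fun i => ?_) i
      · intro h
        rw [Fin.snoc_last] at h
        exact absurd h hy
      · refine Fin.lastCases ?_ (fun j => ?_) j
        · intro _ h
          rw [Fin.snoc_last] at h
          exact absurd h hy
        · rw [Fin.snoc_castSucc, Fin.snoc_castSucc, Fin.snoc_castSucc, Fin.snoc_castSucc]
          exact hG.agree i j

end H313UT
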