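import Pool.Agent.H313UT.Stmts

set_option autoImplicit false

/-! Change of direction. -/

namespace H313UT

namespace TaskG2Aux

lemma good_swap {κ n : ℕ} {t t' : Bool} {l : ℕ} (h : Good κ (n + 1) t t' l) : Good κ n t' t l := by
  rcases h with h | h | h
  · exact Or.inl (by omega)
  · exact Or.inl (by omega)
  · exact Or.inr (Or.inr h.symm)

end TaskG2Aux

theorem TaskG2_proof : TaskG2 := by
  intro κ ρ ρ' n m a b
  constructor
  · intro h
    refine ⟨by have := h.big; omega, h.same, h.same', ?_, h.agree⟩
    intro i hi l hl
    have := h.good i hi l hl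
    rw [if_pos rfl] at this
    rw [if_neg (by simp)]
    exact TaskG2Aux.good_swap this
  · intro h
    refine ⟨by have := h.big; omega, h.same, h.same', ?_, h.agree⟩
    intro i hi l hl
    have := h.good i hi l hl
    rw [if_neg (by simp)] at this
    rw [if_pos rfl]
    exact TaskG2Aux.good_swap this

end H313UT
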