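import Pool.Agent.H313UT.Stmts

/-! # TaskHN: the system of a model is an increasing system (by helper252) -/

open FirstOrder FirstOrder.Language

namespace H313UT

theorem TaskHN_proof : TaskHN := by
  intro N _ f K
  refine ⟨?_, ?_, ?_⟩
  · intro h
    by_cases h0 : h = 0
    · subst h0
      have : (HN K 0 : N → N → Prop) = fun x y => x = y := by
        funext x y
        simp [HN]
      rw [this]
      exact ⟨fun _ => rfl, fun h => h.symm, fun h h' => h.trans h'⟩
    · by_cases hK : h ≤ K
      · have : (HN K h : N → N → Prop) = fun x y => rR (K - h) x y := by
          funext x y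
          simp [HN, h0, hK]
        rw [this]
        exact f.eqv (K - h)
      · have : (HN K h : N → N → Prop) = fun _ _ => True := by
          funext x y
          simp [HN, h0, hK]
        rw [this]
        exact ⟨fun _ => trivial, fun _ => trivial, fun _ _ => trivial⟩
  · intro x y
    simp [HN]
  · intro h x y hxy
    unfold HN at hxy ⊢
    rw [if_neg (Nat.succ_ne_zero h)]
    by_cases hK : h + 1 ≤ K
    · rw [if_pos hK]
      by_cases h0 : h = 0
      · rw [if_pos h0] at hxy
        subst hxy
        exact (f.eqv _).refl _
      · rw [if_neg h0, if_pos (by omega)] at hxy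
        have e : K - h = (K - (h + 1)) + 1 := by omega
        rw [e] at hxy
        exact f.nest _ _ _ hxy
    · rw [if_neg hK]
      trivial

end H313UT
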