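import Pool.Agent.H313UT.Stmts

/-! MP_ba14eb_lc, TaskImg (helper204). -/

namespace H313UT

theorem TaskImg_proof : TaskImg := by
  intro α β γ P u v h
  have hu : u '' P = Prod.fst '' ((fun a => (u a, v a)) '' P) := by
    rw [Set.image_image]
  have hv : v '' P = Prod.snd '' ((fun a => (u a, v a)) '' P) := by
    rw [Set.image_image]
  have iu : Set.InjOn Prod.fst ((fun a => (u a, v a)) '' P) := by
    rintro _ ⟨a, ha, rfl⟩ _ ⟨b, hb, rfl⟩ hab
    exact Prod.ext hab ((h a ha b hb).mp hab)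
  have iv : Set.InjOn Prod.snd ((fun a => (u a, v a)) '' P) := by
    rintro _ ⟨a, ha, rfl⟩ _ ⟨b, hb, rfl⟩ hab
    exact Prod.ext ((h a ha b hb).mpr hab) hab
  rw [hu, hv, iu.encard_image, iv.encard_image]

end H313UT
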