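import Pool.Agent.H313UT.Stmts

/-! TaskInv (helper230). -/

namespace H313UT

theorem TaskInv_proof : TaskInv := by
  intro X κ H col n S hH h x y hxy
  cases h with
  | zero =>
    have : x = y := (hH.zero x y).1 hxy
    rw [this]
  | succ h =>
    have key : ∀ z, H (h + 1) z x ↔ H (h + 1) z y := fun z =>
      ⟨fun hz => (hH.eqv (h + 1)).trans hz hxy,
        fun hz => (hH.eqv (h + 1)).trans hz ((hH.eqv (h + 1)).symm hxy)⟩
    funext t m
    simp only [ty, key]

end H313UT
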