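import Pool.Agent.H313UT.Stmts

set_option autoImplicit false

namespace H313UT

theorem TaskLoc_proof : TaskLoc := by
  intro _ X κ H col n S S' hH h
  induction h with
  | zero => intro x _; rfl
  | succ h ih =>
    intro x hx
    funext t m
    have hs : {y | y ∈ S ∧ H (h + 1) y x ∧ ty H col n S h y = t} =
        {y | y ∈ S' ∧ H (h + 1) y x ∧ ty H col n S' h y = t} := by
      ext y
      constructor
      · rintro ⟨h1, h2, h3⟩
        refine ⟨(hx y h2).1 h1, h2, ?_⟩
        rw [← ih y fun z hz => hx z ((hH.eqv (h + 1)).trans (hH.mono h z y hz) h2)]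
        exact h3
      · rintro ⟨h1, h2, h3⟩
        refine ⟨(hx y h2).2 h1, h2, ?_⟩
        rw [ih y fun z hz => hx z ((hH.eqv (h + 1)).trans (hH.mono h z y hz) h2)]
        exact h3
    show ((((m : ℕ) : ℕ∞)) ≤ ((fun y => {z | H h z y}) '' {y | y ∈ S ∧ H (h + 1) y x ∧
      ty H col n S h y = t}).encard) = ((((m : ℕ) : ℕ∞)) ≤ ((fun y => {z | H h z y}) ''
      {y | y ∈ S' ∧ H (h + 1) y x ∧ ty H col n S' h y = t}).encard)
    rw [hs]

end H313UT
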