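import Pool.Agent.H313UT.Stmts

open FirstOrder FirstOrder.Language

set_option linter.unusedVariables false

namespace H313UT

private theorem term_var {m : ℕ} (t : LL.Term (Empty ⊕ Fin m)) :
    ∃ i, t = Term.var (Sum.inr i) := by
  cases t with
  | var v =>
    rcases v with e | i
    · exact e.elim
    · exact ⟨i, rfl⟩
  | func f ts => exact Empty.elim f

private theorem hn_rR {N : Type} [LL.Structure N] (K j : ℕ) (hj : j < K) (x y : N) :
    HN K (K - j) x y ↔ rR j x y := by
  unfold HN
  rw [if_neg (by omega), if_pos (by omega)]
  have : K - (K - j) = j := by omega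
  rw [this]

theorem TaskPres_proof : TaskPres := by
  intro N M _ _ K F n hforth m φ
  induction φ with
  | falsum => intro _ _ a b _; exact Iff.rfl
  | equal t1 t2 =>
    intro _ _ a b hp
    obtain ⟨i, rfl⟩ := term_var t1
    obtain ⟨j, rfl⟩ := term_var t2
    have h := hp.rel i j 0 (Nat.zero_le _)
    unfold HN at h
    rw [if_pos rfl, if_pos rfl] at h
    exact h
  | @rel m l R ts =>
    intro hS _ a b hp
    have hts : ∀ k, ∃ i, ts k = Term.var (Sum.inr i) := fun k => term_var (ts k)
    choose f hf using hts
    have hcol : ∀ i, colN K F (a i) = colN K F (b i) := fun i => hp.typ i 0 (Nat.zero_le _)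
    have key : ∀ (R : LRel l), SymOK K F R →
        (Structure.RelMap (L := LL) (R : LL.Relations l) (fun k => a (f k)) ↔
          Structure.RelMap (L := LL) (R : LL.Relations l) (fun k => b (f k))) := by
      intro R hR
      cases R with
      | U c =>
        have h1 := congrFun (congrArg Prod.snd (hcol (f 0))) ⟨c, hR⟩
        have h2 : rU c (a (f 0)) = rU c (b (f 0)) := h1
        have e1 : (fun k : Fin 1 => a (f k)) = ![a (f 0)] := by
          funext k; fin_cases k; rfl
        have e2 : (fun k : Fin 1 => b (f k)) = ![b (f 0)] := by
          funext k; fin_cases k; rfl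
        rw [e1, e2]
        exact Iff.of_eq h2
      | V k =>
        have h1 := congrFun (congrArg Prod.fst (hcol (f 0))) ⟨k, hR⟩
        have h2 : rV k (a (f 0)) = rV k (b (f 0)) := h1
        have e1 : (fun k : Fin 1 => a (f k)) = ![a (f 0)] := by
          funext k; fin_cases k; rfl
        have e2 : (fun k : Fin 1 => b (f k)) = ![b (f 0)] := by
          funext k; fin_cases k; rfl
        rw [e1, e2]
        exact Iff.of_eq h2
      | R j =>
        have hj : j < K := hR
        have h1 := hp.rel (f 0) (f 1) (K - j) (by omega)
        rw [hn_rR K j hj, hn_rR K j hj] at h1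
        have e1 : (fun k : Fin 2 => a (f k)) = ![a (f 0), a (f 1)] := by
          funext k; fin_cases k <;> rfl
        have e2 : (fun k : Fin 2 => b (f k)) = ![b (f 0), b (f 1)] := by
          funext k; fin_cases k <;> rfl
        rw [e1, e2]
        exact h1
    have r1 : (BoundedFormula.rel R ts).Realize (default : Empty → N) a ↔
        Structure.RelMap R (fun k => a (f k)) := by
      have : (fun k => (ts k).realize (Sum.elim (default : Empty → N) a)) = fun k => a (f k) := by
        funext k
        rw [hf k]
        rfl
      show Structure.RelMap R (fun k => (ts k).realize (Sum.elim default a)) ↔ _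
      rw [this]
    have r2 : (BoundedFormula.rel R ts).Realize (default : Empty → M) b ↔
        Structure.RelMap R (fun k => b (f k)) := by
      have : (fun k => (ts k).realize (Sum.elim (default : Empty → M) b)) = fun k => b (f k) := by
        funext k
        rw [hf k]
        rfl
      show Structure.RelMap R (fun k => (ts k).realize (Sum.elim default b)) ↔ _
      rw [this]
    rw [r1, r2]
    exact key R hS
  | imp φ ψ ih1 ih2 =>
    intro hS hq a b hp
    have hS' : Supp K F φ ∧ Supp K F ψ := hS
    have hq' : _ + max (qd φ) (qd ψ) ≤ n := hq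
    have h1 := ih1 hS'.1 (by omega) a b hp
    have h2 := ih2 hS'.2 (by omega) a b hp
    exact imp_congr h1 h2
  | all φ ih =>
    intro hS hq a b hp
    have hS' : Supp K F φ := hS
    have hq' : _ + (qd φ + 1) ≤ n := hq
    obtain ⟨f1, f2⟩ := hforth _ a b (by omega) hp
    constructor
    · intro h y
      obtain ⟨x, hx⟩ := f2 y
      exact (ih hS' (by omega) _ _ hx).1 (h x)
    · intro h x
      obtain ⟨y, hy⟩ := f1 x
      exact (ih hS' (by omega) _ _ hy).2 (h y)

end H313UT
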