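import Pool.Agent.H313UT.Stmts

open FirstOrder FirstOrder.Language

namespace H313UT

private theorem root_img_le {α β γ : Type} (P : Set α) (u : α → β) (v : α → γ)
    (h : ∀ a b, v a = v b → u a = u b) : (u '' P).encard ≤ (v '' P).encard := by
  classical
  rcases isEmpty_or_nonempty α with hα | hα
  · have : P = ∅ := Set.eq_empty_of_isEmpty P
    simp [this]
  have e : u '' P = (fun w => u (Function.invFun v w)) '' (v '' P) := by
    rw [Set.image_image]
    apply Set.image_congr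
    intro a _
    exact (h _ _ (Function.invFun_eq (f := v) ⟨a, rfl⟩)).symm
  rw [e]
  exact Set.encard_image_le _ _

theorem TaskRoot_proof : TaskRoot := by
  intro hCls hHN hSub _ _ hU hCop N _ f K F n hK hn x y
  obtain ⟨fC, hfC⟩ := hSub CS (fun c => ⟨c, rfl⟩)
  have hN : HSys (HN K : ℕ → N → N → Prop) := hHN N f K
  have hC : HSys (HN K : ℕ → CS → CS → Prop) := hHN CS fC K
  have hfC' : ∀ c, fC.u c = cEl c := fun c => hfC c
  have hK0 : K ≠ 0 := by omega
  have kerN : ∀ c c', ({z : N | HN K K z (f.u c)} = {z | HN K K z (f.u c')}) ↔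
      bR 0 (.inl c) (.inl c') := by
    intro c c'
    rw [(hCls N _ hN).2, ← f.hR]
    simp [HN, hK0]
  have kerC : ∀ c c', ({z : CS | HN K K z (cEl c)} = {z | HN K K z (cEl c')}) ↔
      bR 0 (.inl c) (.inl c') := by
    intro c c'
    rw [(hCls CS _ hC).2, ← fC.hR, hfC', hfC']
    simp [HN, hK0]
  have hall : ∀ z : CS, ∃ c, z = cEl c := by
    rintro ⟨z, c, rfl⟩
    exact ⟨c, rfl⟩
  funext t m
  apply propext
  -- the two sets
  set Q : Set C0 := {c | ty (HN K) (colN K F) n Set.univ K (cEl c) = t} with hQ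
  have hQN : ∀ c, c ∈ Q ↔ ty (HN K) (colN K F) n Set.univ K (f.u c) = t := by
    intro c
    rw [hU N f K F n c K le_rfl]
    rfl
  have eB : ((fun y : CS => {z : CS | HN K K z y}) '' {y' | y' ∈ (Set.univ : Set CS) ∧
      HN K (K + 1) y' y ∧ ty (HN K) (colN K F) n Set.univ K y' = t}) =
      (fun c => {z : CS | HN K K z (cEl c)}) '' Q := by
    ext s
    constructor
    · rintro ⟨y', ⟨-, -, hy'⟩, rfl⟩
      obtain ⟨c, rfl⟩ := hall y'
      exact ⟨c, hy', rfl⟩
    · rintro ⟨c, hc, rfl⟩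
      exact ⟨cEl c, ⟨trivial, by simp [HN], hc⟩, rfl⟩
  have key1 : ((fun c => {z : CS | HN K K z (cEl c)}) '' Q).encard ≤
      ((fun c => {z : N | HN K K z (f.u c)}) '' Q).encard := by
    apply root_img_le
    intro a b hab
    exact (kerC a b).2 ((kerN a b).1 hab)
  have key2 : ((fun c => {z : N | HN K K z (f.u c)}) '' Q).encard ≤
      ((fun c => {z : CS | HN K K z (cEl c)}) '' Q).encard := by
    apply root_img_le
    intro a b hab
    exact (kerN a b).2 ((kerC a b).1 hab)
  have sub : (fun c => {z : N | HN K K z (f.u c)}) '' Q ⊆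
      ((fun y : N => {z : N | HN K K z y}) '' {y' | y' ∈ (Set.univ : Set N) ∧
      HN K (K + 1) y' x ∧ ty (HN K) (colN K F) n Set.univ K y' = t}) := by
    rintro s ⟨c, hc, rfl⟩
    exact ⟨f.u c, ⟨trivial, by simp [HN], (hQN c).1 hc⟩, rfl⟩
  show ((m : ℕ) : ℕ∞) ≤ _ ↔ ((m : ℕ) : ℕ∞) ≤ _
  rw [eB]
  constructor
  · intro h
    by_cases hx : ∃ x0 : N, ty (HN K) (colN K F) n Set.univ K x0 = t ∧ ∀ c, ¬ rR 0 (f.u c) x0
    · obtain ⟨x0, hx0, hx1⟩ := hx
      have hinf := hCop N f K F n hK hn x0 hx1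
      have : ((fun c => {z : CS | HN K K z (cEl c)}) '' Q).Infinite := by
        refine hinf.mono ?_
        rintro s ⟨y', hy', rfl⟩
        obtain ⟨c, rfl⟩ := hall y'
        exact ⟨c, hy'.trans hx0, rfl⟩
      rw [this.encard_eq]
      exact le_top
    · push Not at hx
      refine h.trans (le_trans (Set.encard_le_encard ?_) key2)
      rintro s ⟨y', ⟨-, -, hy'⟩, rfl⟩
      obtain ⟨c, hc⟩ := hx y' hy'
      obtain ⟨c', rfl⟩ := f.closed c y' hc
      exact ⟨c', (hQN c').2 hy', rfl⟩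
  · intro h
    exact h.trans (key1.trans (Set.encard_le_encard sub))

end H313UT
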