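import Pool.Agent.H313UT.Stmts

set_option autoImplicit false

open FirstOrder FirstOrder.Language

namespace H313UT

namespace TaskSentAux

/-- `V k` at a bound variable -/
def gV {m : ℕ} (k : ℕ) (i : Fin m) : LL.BoundedFormula (Fin 1) m :=
  Relations.boundedFormula₁ (L := LL) (LRel.V k : LL.Relations 1) (Term.var (.inr i))

/-- `R j` at bound variables -/
def gR {m : ℕ} (j : ℕ) (i i' : Fin m) : LL.BoundedFormula (Fin 1) m :=
  Relations.boundedFormula₂ (L := LL) (LRel.R j : LL.Relations 2) (Term.var (.inr i)) (Term.var (.inr i'))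

/-- `R j` at the free variable and a bound variable -/
def gS {m : ℕ} (j : ℕ) (i' : Fin m) : LL.BoundedFormula (Fin 1) m :=
  Relations.boundedFormula₂ (L := LL) (LRel.R j : LL.Relations 2) (Term.var (.inl 0)) (Term.var (.inr i'))

theorem realize_gV {S : Set Big} {m : ℕ} (k : ℕ) (i : Fin m) (v : Fin 1 → S) (xs : Fin m → S) :
    (gV k i).Realize v xs ↔ bV k (xs i).1 := by
  unfold gV
  rw [BoundedFormula.realize_rel₁]
  exact Iff.rfl

theorem realize_gR {S : Set Big} {m : ℕ} (j : ℕ) (i i' : Fin m) (v : Fin 1 → S) (xs : Fin m → S) :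
    (gR j i i').Realize v xs ↔ bR j (xs i).1 (xs i').1 := by
  unfold gR
  rw [BoundedFormula.realize_rel₂]
  exact Iff.rfl

theorem realize_gS {S : Set Big} {m : ℕ} (j : ℕ) (i' : Fin m) (v : Fin 1 → S) (xs : Fin m → S) :
    (gS j i').Realize v xs ↔ bR j (v 0).1 (xs i').1 := by
  unfold gS
  rw [BoundedFormula.realize_rel₂]
  exact Iff.rfl

theorem bR_inr (κ : ℕ) (s : ℕ → ℕ × Bool) (l : ℕ) (y : Big) :
    bR (l + 1) (.inr (κ, s)) y ↔ ∃ s', y = .inr (κ, s') ∧ ∀ r < l, s' r = s r := by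
  constructor
  · rintro ⟨h1, h2⟩
    rcases y with c | ⟨κ', s'⟩
    · exact absurd h1 (by simp [comp])
    · have h3 : κ = κ' := by
        have := h2 0 (Nat.succ_pos l)
        exact congrArg Prod.fst this
      subst h3
      exact ⟨s', rfl, fun r hr => (h2 (r + 1) (Nat.succ_lt_succ hr)).symm⟩
  · rintro ⟨s', rfl, h⟩
    refine ⟨rfl, fun r hr => ?_⟩
    rcases r with _ | r
    · rfl
    · exact (h r (Nat.lt_of_succ_lt_succ hr)).symm

theorem bR_zero (p : ℕ × (ℕ → ℕ × Bool)) (y : Big) : bR 0 (.inr p) y ↔ ∃ p', y = .inr p' := by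
  constructor
  · rintro ⟨h1, -⟩
    rcases y with c | p'
    · exact absurd h1 (by simp [comp])
    · exact ⟨p', rfl⟩
  · rintro ⟨p', rfl⟩
    exact ⟨rfl, fun r hr => absurd hr (Nat.not_lt_zero r)⟩

/-- the formulas `phi h` -/
def phi (κ : ℕ) : ℕ → (m : ℕ) → LL.BoundedFormula (Fin 1) (m + 1)
  | 0, m => gV 0 (Fin.last m)
  | h + 1, m => BoundedFormula.ex (gR (κ - h) (Fin.castSucc (Fin.last m)) (Fin.last (m + 1)) ⊓
      (phi κ h (m + 1)).not)

theorem mem_Lf {ρ : ℕ → Bool} {κ : ℕ} {s : ℕ → ℕ × Bool} (x : NS ρ) (h : x.1 = .inr (κ, s)) :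
    s ∈ Lf κ (ρ κ) := by
  have := x.2
  rw [h] at this
  exact this

theorem phi_spec (hBr : TaskBr) (κ : ℕ) (hκ : 1 ≤ κ) (ρ : ℕ → Bool) (v : Fin 1 → NS ρ) (h : ℕ) :
    h ≤ κ → ∀ (m : ℕ) (xs : Fin (m + 1) → NS ρ) (s : ℕ → ℕ × Bool),
      (xs (Fin.last m)).1 = .inr (κ, s) →
      ((phi κ h m).Realize v xs ↔ typ (ρ κ) s (κ - h) = true) := by
  induction h with
  | zero =>
    intro _ m xs s hs
    show (gV 0 (Fin.last m)).Realize v xs ↔ _
    rw [realize_gV, hs]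
    obtain ⟨l, rfl⟩ : ∃ l, κ = l + 1 := ⟨κ - 1, by omega⟩
    exact Iff.rfl
  | succ h ih =>
    intro hh m xs s hs
    obtain ⟨l, hl⟩ : ∃ l, κ - h = l + 1 := ⟨κ - h - 1, by omega⟩
    have hl' : κ - (h + 1) = l := by omega
    have hlκ : l < κ := by omega
    show (BoundedFormula.ex (gR (κ - h) (Fin.castSucc (Fin.last m)) (Fin.last (m + 1)) ⊓
      (phi κ h (m + 1)).not)).Realize v xs ↔ _
    rw [BoundedFormula.realize_ex, hl', ((hBr κ (ρ κ)).2 s (mem_Lf _ hs) l hlκ)]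
    constructor
    · rintro ⟨a, ha⟩
      rw [BoundedFormula.realize_inf, realize_gR, BoundedFormula.realize_not, Fin.snoc_last,
        Fin.snoc_castSucc, hs, hl, bR_inr] at ha
      obtain ⟨⟨s', hs', hagree⟩, hn⟩ := ha
      rw [ih (by omega) (m + 1) (Fin.snoc xs a : Fin (m + 2) → NS ρ) s'
        (by rw [Fin.snoc_last]; exact hs'), hl] at hn
      exact ⟨s', mem_Lf a hs', hagree, by simpa using hn⟩
    · rintro ⟨s', hs', hagree, ht⟩
      refine ⟨⟨.inr (κ, s'), hs'⟩, ?_⟩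
      rw [BoundedFormula.realize_inf, realize_gR, BoundedFormula.realize_not, Fin.snoc_last,
        Fin.snoc_castSucc, hs, hl, bR_inr]
      refine ⟨⟨s', rfl, hagree⟩, ?_⟩
      rw [ih (by omega) (m + 1) _ s' (by rw [Fin.snoc_last]), hl]
      simp [ht]

end TaskSentAux

open TaskSentAux in
theorem TaskSent_proof : TaskSent := by
  intro hBr κ hκ
  let χ : LL.Formula (Fin 1) :=
    BoundedFormula.ex ((gS 0 (Fin.last 0) ⊓ gV (κ + 1) (Fin.last 0)) ⊓ phi κ κ 0)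
  refine ⟨Formula.equivSentence χ, fun ρ => ?_⟩
  have h1 := Formula.realize_equivSentence_symm (M := NS ρ) (Formula.equivSentence χ)
    (fun _ : Fin 1 => star ρ)
  rw [Equiv.symm_apply_apply] at h1
  refine h1.symm.trans ?_
  show BoundedFormula.Realize (BoundedFormula.ex ((gS 0 (Fin.last 0) ⊓ gV (κ + 1) (Fin.last 0)) ⊓
    phi κ κ 0)) (fun _ : Fin 1 => star ρ) default ↔ _
  rw [BoundedFormula.realize_ex]
  constructor
  · rintro ⟨a, ha⟩
    rw [BoundedFormula.realize_inf, BoundedFormula.realize_inf, realize_gS, realize_gV,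
      Fin.snoc_last] at ha
    obtain ⟨⟨ha1, ha2⟩, ha3⟩ := ha
    obtain ⟨⟨κ', s⟩, hp⟩ := (bR_zero _ _).1 ha1
    rw [hp] at ha2
    have hκ' : κ' = κ := ha2
    subst hκ'
    rw [phi_spec hBr κ' hκ ρ _ κ' le_rfl 0 _ s (by rw [Fin.snoc_last]; exact hp)] at ha3
    simpa [typ] using ha3
  · intro hρ
    obtain ⟨s, hs⟩ := (hBr κ (ρ κ)).1
    refine ⟨⟨.inr (κ, s), hs⟩, ?_⟩
    rw [BoundedFormula.realize_inf, BoundedFormula.realize_inf, realize_gS, realize_gV,
      Fin.snoc_last]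
    refine ⟨⟨(bR_zero _ _).2 ⟨_, rfl⟩, rfl⟩, ?_⟩
    rw [phi_spec hBr κ hκ ρ _ κ le_rfl 0 _ s (by rw [Fin.snoc_last])]
    simpa [typ] using hρ

end H313UT
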