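import Pool.Agent.H313UT.Stmts

open FirstOrder FirstOrder.Language

namespace H313UT

theorem rU_iff_sub (S : Set Big) (c : C0) (x : S) : rU c x ↔ x.1 = Sum.inl c := Iff.rfl

theorem rR_iff_sub (S : Set Big) (j : ℕ) (x y : S) : rR j x y ↔ bR j x.1 y.1 := Iff.rfl

theorem rV_iff_sub (S : Set Big) (k : ℕ) (x : S) : rV k x ↔ bV k x.1 := Iff.rfl

theorem TaskSub_proof : TaskSub := by
  intro S hS
  refine ⟨{ u := fun c => ⟨Sum.inl c, hS c⟩
            hu := ?_, inj := ?_, hR := ?_, hV := ?_, eqv := ?_, nest := ?_, closed := ?_ },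
    fun _ => rfl⟩
  · intro c x
    rw [rU_iff_sub]
    constructor
    · intro h
      exact Subtype.ext h
    · intro h
      rw [h]
  · intro c c' h
    have h1 : (Sum.inl c : Big) = Sum.inl c' := congrArg Subtype.val h
    exact Sum.inl_injective h1
  · intro c c' j
    exact Iff.rfl
  · intro c k
    exact Iff.rfl
  · intro j
    refine ⟨?_, ?_, ?_⟩
    · intro x
      exact ⟨rfl, fun _ _ => rfl⟩
    · intro x y h
      exact ⟨h.1.symm, fun r hr => (h.2 r hr).symm⟩
    · intro x y z h h'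
      exact ⟨h.1.trans h'.1, fun r hr => (h.2 r hr).trans (h'.2 r hr)⟩
  · intro j x y h
    exact ⟨h.1, fun r hr => h.2 r (Nat.lt_succ_of_lt hr)⟩
  · intro c x h
    obtain ⟨x, hx⟩ := x
    cases x with
    | inl c' => exact ⟨c', rfl⟩
    | inr p =>
      exfalso
      have h1 : comp (Sum.inl c) = comp (Sum.inr p) := h.1
      simp [comp] at h1

end H313UT
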