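import Pool.Agent.H313UT.Stmts

open FirstOrder FirstOrder.Language

namespace H313UT

theorem symOK_mono {K K' : ℕ} {F F' : Finset C0} (hK : K ≤ K') (hF : F ⊆ F') {l : ℕ} (R : LRel l) :
    SymOK K F R → SymOK K' F' R := by
  cases R with
  | U c => exact fun h => hF h
  | V k => exact fun h => lt_of_lt_of_le h hK
  | R j => exact fun h => lt_of_lt_of_le h hK

theorem supp_mono {K K' : ℕ} {F F' : Finset C0} (hK : K ≤ K') (hF : F ⊆ F') {m : ℕ}
    (φ : LL.BoundedFormula Empty m) : Supp K F φ → Supp K' F' φ := by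
  induction φ with
  | falsum => exact fun _ => trivial
  | equal _ _ => exact fun _ => trivial
  | rel R ts => exact symOK_mono hK hF R
  | imp φ ψ ih1 ih2 => exact fun h => ⟨ih1 h.1, ih2 h.2⟩
  | all φ ih => exact fun h => ih h

theorem symOK_exists {l : ℕ} (R : LRel l) : ∃ (K : ℕ) (F : Finset C0), 1 ≤ K ∧ SymOK K F R := by
  classical
  cases R with
  | U c => exact ⟨1, {c}, le_rfl, Finset.mem_singleton_self c⟩
  | V k => exact ⟨k + 1, ∅, Nat.succ_pos k, Nat.lt_succ_self k⟩
  | R j => exact ⟨j + 1, ∅, Nat.succ_pos j, Nat.lt_succ_self j⟩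

theorem TaskSupp_proof : TaskSupp := by
  classical
  intro m φ
  induction φ with
  | falsum => exact ⟨1, ∅, le_rfl, trivial⟩
  | equal _ _ => exact ⟨1, ∅, le_rfl, trivial⟩
  | rel R ts => exact symOK_exists R
  | imp φ ψ ih1 ih2 =>
    obtain ⟨K1, F1, h1, h1'⟩ := ih1
    obtain ⟨K2, F2, h2, h2'⟩ := ih2
    exact ⟨max K1 K2, F1 ∪ F2, h1.trans (le_max_left _ _),
      supp_mono (le_max_left _ _) Finset.subset_union_left φ h1',
      supp_mono (le_max_right _ _) Finset.subset_union_right ψ h2'⟩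
  | all φ ih =>
    obtain ⟨K, F, h, h'⟩ := ih
    exact ⟨K, F, h, h'⟩

end H313UT
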