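import Pool.Agent.H313UT.Stmts

/-! Blueprint for MP_ba14eb_lc: transfer of types along a map (helper182). -/

set_option linter.unusedVariables false

namespace H313UT

theorem TaskTrans_proof : TaskTrans := by
  intro hI hC X Y κ H col H' col' n top S S' f hH hH' hm hs hrel hcol h
  induction h with
  | zero => intro _ y hy; exact hcol y hy
  | succ h ih =>
    intro hh y hy
    have ih' := ih (by omega)
    have key : ∀ t : Ty κ n h,
        ((fun y => {z | H h z y}) '' {x | x ∈ S ∧ H (h + 1) x (f y) ∧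
          ty H col n S h x = t}).encard =
        ((fun y => {z | H' h z y}) '' {y' | y' ∈ S' ∧ H' (h + 1) y' y ∧
          ty H' col' n S' h y' = t}).encard := by
      intro t
      have e1 : {x | x ∈ S ∧ H (h + 1) x (f y) ∧ ty H col n S h x = t} =
          f '' {y' | y' ∈ S' ∧ H' (h + 1) y' y ∧ ty H' col' n S' h y' = t} := by
        ext x
        constructor
        · rintro ⟨hx, h1, h2⟩
          obtain ⟨y', hy', rfl⟩ := hs hx
          exact ⟨y', ⟨hy', (hrel y' hy' y hy _ hh).1 h1, by rw [← ih' y' hy']; exact h2⟩, rfl⟩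
        · rintro ⟨y', ⟨hy', h1, h2⟩, rfl⟩
          exact ⟨hm hy', (hrel y' hy' y hy _ hh).2 h1, by rw [ih' y' hy']; exact h2⟩
      rw [e1, Set.image_image]
      refine hI _ _ _ _ _ _ ?_
      rintro a ⟨ha, -⟩ b ⟨hb, -⟩
      rw [(hC X H hH).2, (hC Y H' hH').2]
      exact hrel a ha b hb h (by omega)
    show (fun (t : Ty κ n h) (m : Fin (n + 1)) => (((m : ℕ) : ℕ∞)) ≤
      ((fun y => {z | H h z y}) '' {x | x ∈ S ∧ H (h + 1) x (f y) ∧
          ty H col n S h x = t}).encard) = fun (t : Ty κ n h) (m : Fin (n + 1)) =>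
      (((m : ℕ) : ℕ∞)) ≤ ((fun y => {z | H' h z y}) '' {y' | y' ∈ S' ∧ H' (h + 1) y' y ∧
          ty H' col' n S' h y' = t}).encard
    funext t m
    rw [key t]

end H313UT
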