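import Pool.Agent.H313UT.Stmts

/-! # The tree game (MP_ba14eb_lc, task UT.TaskTree) -/

open FirstOrder FirstOrder.Language

set_option linter.unusedVariables false

namespace H313UT

/-- the second components of the answer in the tree game -/
def treeCol (κ d : ℕ) (ρ' : Bool) (t : ℕ → Bool) (s : ℕ → Bool) : ℕ → Bool
  | 0 => ρ'
  | r + 1 => if r < d then s r else if r < κ then (t (r + 1) || !treeCol κ d ρ' t s r) else true

theorem treeTask_typ_congr (ρ : Bool) (u v : ℕ → ℕ × Bool) (l : ℕ) (h : ∀ r < l, u r = v r) :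
    typ ρ u l = typ ρ v l := by
  cases l with
  | zero => rfl
  | succ l => exact congrArg Prod.snd (h l (Nat.lt_succ_self l))

theorem treeTask_ref (κ : ℕ) (ρ ρ' : Bool) (n : ℕ) (h0 : Good κ n ρ ρ' 0) (ι : Type)
    (a b : ι → ℕ → ℕ × Bool) (ha : ∀ i, a i ∈ Lf κ ρ) (hb : ∀ i, b i ∈ Lf κ ρ')
    (hpos : TPos κ ρ ρ' n a b) (x : ℕ → ℕ × Bool) (hx : x ∈ Lf κ ρ) (hxa : ¬ ∃ i, x = a i) :
    ∃ (d : ℕ) (s : ℕ → ℕ × Bool), d ≤ κ ∧ (Nonempty ι → d < κ) ∧
      (∀ l, d < l → ∀ i, ¬ (∀ r < l, x r = a i r)) ∧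
      (∀ i < d, ¬ (typ ρ' s i = false ∧ typ ρ' s (i + 1) = false)) ∧
      (∀ l ≤ d, Good κ n (typ ρ x l) (typ ρ' s l) l) ∧
      (∀ i l, l ≤ d → ((∀ r < l, x r = a i r) ↔ (∀ r < l, s r = b i r))) := by
  classical
  by_cases hι : Nonempty ι
  · let P : ℕ → Prop := fun l => ∃ i, ∀ r < l, x r = a i r
    have hP0 : P 0 := ⟨hι.some, fun r hr => absurd hr (Nat.not_lt_zero r)⟩
    have hPκ : ¬ P κ := by
      rintro ⟨i, hi⟩
      apply hxa
      refine ⟨i, funext fun r => ?_⟩
      by_cases hr : r < κ
      · exact hi r hr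
      · rw [hx.1 r (not_lt.mp hr), (ha i).1 r (not_lt.mp hr)]
    obtain ⟨i0, hi0⟩ : P (Nat.findGreatest P κ) := Nat.findGreatest_spec (Nat.zero_le κ) hP0
    have hle : Nat.findGreatest P κ ≤ κ := Nat.findGreatest_le κ
    have hlt : Nat.findGreatest P κ < κ := by
      rcases hle.lt_or_eq with h | h
      · exact h
      · exfalso
        apply hPκ
        refine ⟨i0, fun r hr => hi0 r ?_⟩
        rw [h]; exact hr
    refine ⟨Nat.findGreatest P κ, b i0, hle, fun _ => hlt, ?_, ?_, ?_, ?_⟩
    · intro l hl i hi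
      by_cases hlκ : l ≤ κ
      · exact Nat.findGreatest_is_greatest hl hlκ ⟨i, hi⟩
      · exact hPκ ⟨i, fun r hr => hi r (by omega)⟩
    · intro i hi
      exact (hb i0).2 i (by omega)
    · intro l hl
      rw [treeTask_typ_congr ρ x (a i0) l (fun r hr => hi0 r (by omega))]
      exact hpos.good i0 l (by omega)
    · intro i l hl
      rw [← hpos.agree i0 i l]
      constructor
      · intro h r hr
        rw [← hi0 r (by omega), h r hr]
      · intro h r hr
        rw [hi0 r (by omega), h r hr]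
  · refine ⟨0, x, Nat.zero_le κ, fun h => absurd h hι, fun l _ i => absurd ⟨i⟩ hι, ?_, ?_, ?_⟩
    · intro i hi; exact absurd hi (Nat.not_lt_zero i)
    · intro l hl
      obtain rfl : l = 0 := Nat.le_zero.mp hl
      exact h0
    · intro i
      exact absurd ⟨i⟩ hι

theorem TaskTree_proof : TaskTree := by
  intro κ ρ ρ' n hn h0 ι _ a b ha hb hpos x hx
  classical
  by_cases hxa : ∃ i, x = a i
  · obtain ⟨i, rfl⟩ := hxa
    exact ⟨b i, hb i, fun l hl => hpos.good i l hl, fun j l => hpos.agree i j l⟩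
  obtain ⟨d, s, hdκ, hdlt, hmax, hsL, hsG, hsA⟩ :=
    treeTask_ref κ ρ ρ' n h0 ι a b ha hb hpos x hx hxa
  obtain ⟨m, hm⟩ : ∃ m : ℕ, ∀ i, (b i d).1 ≠ m := by
    obtain ⟨m, hm⟩ := (Set.finite_range (fun i => (b i d).1)).infinite_compl.nonempty
    exact ⟨m, fun i hi => hm ⟨i, hi⟩⟩
  let c : ℕ → Bool := treeCol κ d ρ' (typ ρ x) (fun r => (s r).2)
  let y : ℕ → ℕ × Bool := fun r =>
    (if r < d then (s r).1 else if r = d ∧ r < κ then m else 0, c (r + 1))
  have hcy : ∀ l, typ ρ' y l = c l := by
    intro l; cases l <;> rfl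
  have hc1 : ∀ r, r < d → c (r + 1) = (s r).2 := by
    intro r hr
    show (if r < d then (s r).2 else _) = _
    rw [if_pos hr]
  have hc2 : ∀ r, ¬ r < d → r < κ → c (r + 1) = (typ ρ x (r + 1) || !c r) := by
    intro r hr hr'
    show (if r < d then (s r).2 else if r < κ then (typ ρ x (r + 1) || !c r) else true) = _
    rw [if_neg hr, if_pos hr']
  have hc3 : ∀ r, ¬ r < κ → c (r + 1) = true := by
    intro r hr
    show (if r < d then (s r).2 else if r < κ then (typ ρ x (r + 1) || !c r) else true) = _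
    rw [if_neg (by omega), if_neg hr]
  have hcs : ∀ l, l ≤ d → c l = typ ρ' s l := by
    intro l hl
    cases l with
    | zero => rfl
    | succ l => exact hc1 l (by omega)
  have hys : ∀ r, r < d → y r = s r := by
    intro r hr
    show ((if r < d then (s r).1 else _), c (r + 1)) = s r
    rw [if_pos hr, hc1 r hr]
  have hyd : d < κ → (y d).1 = m := by
    intro h
    show (if d < d then (s d).1 else if d = d ∧ d < κ then m else 0) = m
    rw [if_neg (lt_irrefl d), if_pos ⟨rfl, h⟩]
  have hyκ : ∀ r, κ ≤ r → y r = (0, true) := by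
    intro r hr
    show ((if r < d then (s r).1 else if r = d ∧ r < κ then m else 0), c (r + 1)) = (0, true)
    rw [if_neg (by omega), if_neg (by omega), hc3 r (by omega)]
  refine ⟨y, ⟨hyκ, ?_⟩, ?_, ?_⟩
  · intro i hi
    rw [hcy, hcy]
    by_cases hid : i < d
    · rw [hcs i hid.le, hcs (i + 1) hid]
      exact hsL i hid
    · rw [hc2 i hid hi]
      rintro ⟨h1, h2⟩
      rw [h1] at h2
      simp at h2
  · intro l
    induction l with
    | zero => intro _; exact h0
    | succ r ih =>
      intro hr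
      rw [hcy]
      by_cases hrd : r < d
      · rw [hcs (r + 1) hrd]
        exact hsG (r + 1) hrd
      · have ih' := ih (by omega)
        rw [hcy] at ih'
        rw [hc2 r hrd (by omega)]
        have hxL := hx.2 r (by omega)
        revert ih' hxL
        generalize typ ρ x (r + 1) = t
        generalize c r = u
        generalize typ ρ x r = v
        unfold Good
        intro ih' hxL
        cases t <;> cases u <;> cases v <;> simp at ih' hxL ⊢ <;> omega
  · intro i l
    by_cases hl : l ≤ d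
    · rw [hsA i l hl]
      constructor
      · intro h r hr
        rw [hys r (by omega), h r hr]
      · intro h r hr
        rw [← hys r (by omega), h r hr]
    · constructor
      · intro h
        exact absurd h (hmax l (by omega) i)
      · intro h
        exfalso
        apply hm i
        rw [← h d (by omega)]
        exact hyd (hdlt ⟨i⟩)

end H313UT
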