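import Pool.Agent.H313UT.Stmts

/-! `TaskTyFin` of the blueprint for MP_ba14eb_lc (helper170). -/

namespace H313UT

theorem TaskTyFin_proof : TaskTyFin := by
  intro κ n hκ h
  induction h with
  | zero => exact hκ
  | succ h ih =>
    haveI := ih
    show Finite (Ty κ n h → Fin (n + 1) → Prop)
    infer_instance

end H313UT
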