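import Pool.Agent.H313UT.Stmts

/-! Types of named elements (blueprint for MP_ba14eb_lc). -/

open FirstOrder FirstOrder.Language

namespace H313UT

namespace UtyAux

theorem low {M : Type} [LL.Structure M] (e : Facts M) {K h : ℕ} (hh : h ≤ K) {x y : M}
    (H : HN K h y x) : rR 0 x y := by
  unfold HN at H
  by_cases h0 : h = 0
  · rw [if_pos h0] at H
    rw [H]
    exact (e.eqv 0).refl _
  · rw [if_neg h0, if_pos hh] at H
    have h1 : ∀ j, rR j y x → rR 0 y x := by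
      intro j
      induction j with
      | zero => exact id
      | succ j ih => exact fun H => ih (e.nest j _ _ H)
    exact (e.eqv 0).symm (h1 _ H)

theorem cR (j : ℕ) (c c' : C0) : rR j (cEl c) (cEl c') ↔ bR j (.inl c) (.inl c') := Iff.rfl

theorem cV (k : ℕ) (c : C0) : rV k (cEl c) ↔ bV k (.inl c) := Iff.rfl

end UtyAux

open UtyAux

theorem TaskUty_proof : TaskUty := by
  intro hCls hLoc hTrans hImg hHN hSub N _ f K F n c h hh
  obtain ⟨f', hf'⟩ := hSub CS (fun c => ⟨c, rfl⟩)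
  have hf'' : ∀ c, f'.u c = cEl c := hf'
  have HX : HSys (HN K : ℕ → N → N → Prop) := hHN N f K
  have HY : HSys (HN K : ℕ → CS → CS → Prop) := hHN CS f' K
  have hinj : ∀ c1 c2, cEl c1 = cEl c2 → c1 = c2 := fun c1 c2 h =>
    f'.inj (by rw [hf'', hf'', h])
  have hex : ∀ y : CS, ∃ c', y = cEl c' := by
    rintro ⟨_, c', rfl⟩
    exact ⟨c', rfl⟩
  choose κ hκ using hex
  have hg : ∀ c', κ (cEl c') = c' := fun c' => (hinj _ _ (hκ (cEl c'))).symm
  have e1 : ty (HN K) (colN K F) n Set.univ h (f.u c) =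
      ty (HN K) (colN K F) n {y : N | rR 0 (f.u c) y} h (f.u c) :=
    hLoc hCls N _ (HN K) (colN K F) n _ _ HX h (f.u c) fun y hy =>
      ⟨fun _ => low f hh hy, fun _ => Set.mem_univ _⟩
  have e2 : ty (HN K) (colN K F) n Set.univ h (cEl c) =
      ty (HN K) (colN K F) n {y : CS | rR 0 (cEl c) y} h (cEl c) :=
    hLoc hCls CS _ (HN K) (colN K F) n _ _ HY h (cEl c) fun y hy =>
      ⟨fun _ => low f' hh hy, fun _ => Set.mem_univ _⟩
  rw [e1, e2]
  have key := hTrans hImg hCls N CS _ (HN K) (colN K F) (HN K) (colN K F) n K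
    {y : N | rR 0 (f.u c) y} {y : CS | rR 0 (cEl c) y} (fun y => f.u (κ y)) HX HY ?_ ?_ ?_ ?_
    h hh (cEl c) ((f'.eqv 0).refl _)
  · simp only [hg] at key
    exact key
  · intro y hy
    obtain ⟨c', rfl⟩ : ∃ c', y = cEl c' := ⟨_, hκ y⟩
    simp only [hg]
    exact (f.hR c c' 0).2 ((cR 0 c c').1 hy)
  · intro x hx
    obtain ⟨c', rfl⟩ := f.closed c x hx
    exact ⟨cEl c', (cR 0 c c').2 ((f.hR c c' 0).1 hx), by simp only [hg]⟩
  · intro y _ y' _ k hk
    obtain ⟨c1, rfl⟩ : ∃ c', y = cEl c' := ⟨_, hκ y⟩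
    obtain ⟨c2, rfl⟩ : ∃ c', y' = cEl c' := ⟨_, hκ y'⟩
    simp only [hg]
    unfold HN
    by_cases h0 : k = 0
    · rw [if_pos h0, if_pos h0]
      exact ⟨fun H => by rw [f.inj H], fun H => by rw [hinj _ _ H]⟩
    · rw [if_neg h0, if_neg h0, if_pos hk, if_pos hk]
      exact (f.hR c1 c2 _).trans (cR _ c1 c2).symm
  · intro y _
    obtain ⟨c1, rfl⟩ : ∃ c', y = cEl c' := ⟨_, hκ y⟩
    simp only [hg]
    unfold colN
    refine Prod.ext ?_ ?_
    · funext k
      exact propext ((f.hV c1 _).trans (cV _ c1).symm)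
    · funext c2
      refine propext ?_
      show rU (c2 : C0) (f.u c1) ↔ rU (c2 : C0) (cEl c1)
      rw [f.hu, f'.hu, hf'']
      exact ⟨fun H => by rw [f.inj H], fun H => by rw [hinj _ _ H]⟩

end H313UT
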