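import Pool.Agent.H313UT.Assembly
import Pool.Agent.H313UT.TaskImg
import Pool.Agent.H313UT.TaskCls
import Pool.Agent.H313UT.TaskInv
import Pool.Agent.H313UT.TaskLoc
import Pool.Agent.H313UT.TaskTrans
import Pool.Agent.H313UT.TaskTyFin
import Pool.Agent.H313UT.TaskFin
import Pool.Agent.H313UT.TaskDesc
import Pool.Agent.H313UT.TaskCountB
import Pool.Agent.H313UT.TaskForth
import Pool.Agent.H313UT.TaskHN
import Pool.Agent.H313UT.TaskPres
import Pool.Agent.H313UT.TaskSupp
import Pool.Agent.H313UT.TaskFacts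
import Pool.Agent.H313UT.TaskAx
import Pool.Agent.H313UT.TaskSub
import Pool.Agent.H313UT.TaskEx2
import Pool.Agent.H313UT.TaskUty
import Pool.Agent.H313UT.TaskCode
import Pool.Agent.H313UT.TaskCopies
import Pool.Agent.H313UT.TaskRoot
import Pool.Agent.H313UT.TaskTree
import Pool.Agent.H313UT.TaskBlk
import Pool.Agent.H313UT.TaskG0
import Pool.Agent.H313UT.TaskG1
import Pool.Agent.H313UT.TaskG1b
import Pool.Agent.H313UT.TaskG2
import Pool.Agent.H313UT.TaskBr
import Pool.Agent.H313UT.TaskSent
import Pool.Agent.H313UT.TaskLang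

/-! # Final theorem for MP_ba14eb_lc -/

open FirstOrder FirstOrder.Language

namespace H313UT

theorem full : ∃ (L : FirstOrder.Language.{0, 0}) (T : L.Theory), L.IsRelational ∧
    Countable L.Symbols ∧ T.IsComplete ∧ Axiomatizable false 2 T ∧
    ∃ (m : ℕ) (p : T.CompleteType (Fin m)), ¬ Bounded p.toTheory :=
  main TaskImg_proof TaskCls_proof TaskInv_proof TaskLoc_proof TaskTrans_proof TaskTyFin_proof TaskFin_proof TaskDesc_proof TaskCount_proofB TaskForth_proof TaskHN_proof TaskPres_proof TaskSupp_proof TaskFacts_proof TaskAx_proof TaskSub_proof TaskEx2_proof TaskUty_proof TaskCode_proof TaskCopies_proof TaskRoot_proof TaskTree_proof TaskBlk_proof TaskG0_proof TaskG1_proof TaskG1b_proof TaskG2_proof TaskBr_proof TaskSent_proof TaskLang_proof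

end H313UT
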