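import Pool.Agent.H313UT.Defs

/-! # Blueprint for MP_ba14eb_lc (helper313)

Every task is a `Prop`; prove `theorem TaskXxx_proof : TaskXxx` in the file `Pool/Agent/H313UT/TaskXxx.lean`
(`import Pool.Agent.H313UT.Stmts`), namespace `H313UT`. Hypotheses of the form `TaskYyy →` may be used. -/

open FirstOrder FirstOrder.Language

set_option linter.unusedVariables false

namespace H313UT

/-- Two functions with the same kernel on `P` have images of the same size. Hint: bijection of the images. -/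
def TaskImg : Prop := ∀ (α β γ : Type) (P : Set α) (u : α → β) (v : α → γ),
  (∀ a ∈ P, ∀ b ∈ P, (u a = u b ↔ v a = v b)) → (u '' P).encard = (v '' P).encard

/-- `H` is increasing; classes. -/
def TaskCls : Prop := ∀ (X : Type) (H : ℕ → X → X → Prop), HSys H →
  (∀ h h' x y, h ≤ h' → H h x y → H h' x y) ∧
  (∀ h x y, ({z | H h z x} = {z | H h z y}) ↔ H h x y)

/-- `ty` only depends on the class. Hint: cases on `h`. -/
def TaskInv : Prop := ∀ (X κ : Type) (H : ℕ → X → X → Prop) (col : X → κ) (n : ℕ) (S : Set X), HSys H →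
  ∀ h x y, H h x y → ty H col n S h x = ty H col n S h y

/-- Locality. Hint: induction on `h`; the sets whose encard is taken are equal. -/
def TaskLoc : Prop := TaskCls → ∀ (X κ : Type) (H : ℕ → X → X → Prop) (col : X → κ) (n : ℕ) (S S' : Set X),
  HSys H → ∀ h x, (∀ y, H h y x → (y ∈ S ↔ y ∈ S')) → ty H col n S h x = ty H col n S' h x

/-- Transfer. Hint: induction on `h`. The first set is the image under `(cls of height h) ∘ f` of the
second base set; use TaskImg. -/
def TaskTrans : Prop := TaskImg → TaskCls → ∀ (X Y κ : Type) (H : ℕ → X → X → Prop) (col : X → κ)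
  (H' : ℕ → Y → Y → Prop) (col' : Y → κ) (n top : ℕ) (S : Set X) (S' : Set Y) (f : Y → X),
  HSys H → HSys H' → Set.MapsTo f S' S → Set.SurjOn f S' S →
  (∀ y ∈ S', ∀ y' ∈ S', ∀ h, h ≤ top → (H h (f y) (f y') ↔ H' h y y')) →
  (∀ y ∈ S', col (f y) = col' y) →
  ∀ h, h ≤ top → ∀ y ∈ S', ty H col n S h (f y) = ty H' col' n S' h y

/-- The set of types is finite. -/
def TaskTyFin : Prop := ∀ (κ : Type) (n : ℕ), Finite κ → ∀ h, Finite (Ty κ n h)

/-- Finite realization. Hint: induction on `h`, `x` generalized. For `h+1` and a type `t` let `A t` be the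
set of `h`-classes in the `(h+1)`-class of `x` with type `t`; choose a finite `G t ⊆ A t` with
`(m ≤ (G t).encard ↔ m ≤ (A t).encard)` for `m ≤ n`, nonempty if `A t` is; a representative and (IH) a
finite set for every class in `G t`; take the union. By TaskLoc and TaskInv the types are right. -/
def TaskFin : Prop := TaskCls → TaskInv → TaskLoc → TaskTyFin → ∀ (X κ : Type) (H : ℕ → X → X → Prop)
  (col : X → κ) (n : ℕ), HSys H → Finite κ → 1 ≤ n → ∀ h x, ∃ S : Set X, S.Finite ∧ S.Nonempty ∧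
    (∀ y ∈ S, H h y x) ∧ ty H col n S h x = ty H col n Set.univ h x

/-- Descending. Hint: induction on `g`: the set for `t = ty g x`, `m = 1` is nonempty on the left (it
contains the class of `x`), so it is nonempty on the right. -/
def TaskDesc : Prop := TaskCls → TaskInv → ∀ (X Y κ : Type) (H : ℕ → X → X → Prop) (col : X → κ)
  (H' : ℕ → Y → Y → Prop) (col' : Y → κ) (n : ℕ), HSys H → HSys H' → 1 ≤ n →
  ∀ g x y, ty H col n Set.univ g x = ty H' col' n Set.univ g y →
    ∃ y', H' g y' y ∧ ∀ h, h ≤ g → ty H col n Set.univ h x = ty H' col' n Set.univ h y'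

/-- One step of the game. Situation: `x` is in the `(g+1)`-class of a played `a i` (or `g + 1 = top` and
nothing is played: then take any `y0`), but in no `g`-class of a played element. Then there is `y` in the
`(g+1)`-class of `y0` with the same type at height `g`, in no `g`-class of a played `b j`.
Hint: count. `J = {j | H (g+1) (a j) x ∧ ty g (a j) = ty g x}`; by TaskImg the images of `J` under the
classes of `a j` and of `b j` have the same size `s ≤ m`, so the set for `t = ty g x` has at least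
`s + 1 ≤ n` elements on the left, hence on the right. -/
def TaskCount : Prop := TaskImg → TaskCls → TaskInv → ∀ (X Y κ : Type) (H : ℕ → X → X → Prop) (col : X → κ)
  (H' : ℕ → Y → Y → Prop) (col' : Y → κ) (n g m : ℕ) (a : Fin m → X) (b : Fin m → Y),
  HSys H → HSys H' → m < n → ∀ (x : X) (y0 : Y),
  ty H col n Set.univ (g + 1) x = ty H' col' n Set.univ (g + 1) y0 →
  (∀ j, H (g + 1) (a j) x ↔ H' (g + 1) (b j) y0) →
  (∀ i j, H g (a i) (a j) ↔ H' g (b i) (b j)) →
  (∀ j, ty H col n Set.univ g (a j) = ty H' col' n Set.univ g (b j)) →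
  (∀ j, ¬ H g (a j) x) →
  ∃ y, H' (g + 1) y y0 ∧ ty H' col' n Set.univ g y = ty H col n Set.univ g x ∧ ∀ j, ¬ H' g (b j) y

/-- The game. Hint: if `x = a i`, take `b i`. Otherwise take the least `g + 1` such that `g + 1 = top` or
`H (g+1) (a i) x` for some `i`; TaskCount, then TaskDesc. -/
def TaskForth : Prop := TaskCls → TaskInv → TaskDesc → TaskCount → ∀ (X Y κ : Type) (H : ℕ → X → X → Prop)
  (col : X → κ) (H' : ℕ → Y → Y → Prop) (col' : Y → κ) (n top m : ℕ) (a : Fin m → X) (b : Fin m → Y),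
  HSys H → HSys H' → (∀ x y, H top x y) → (∀ x y, H' top x y) →
  (∀ x y, ty H col n Set.univ top x = ty H' col' n Set.univ top y) → Nonempty Y → m < n →
  Pos H col H' col' n top a b →
  ∀ x, ∃ y, Pos H col H' col' n top (Fin.snoc a x : Fin (m + 1) → X) (Fin.snoc b y : Fin (m + 1) → Y)

/-- The system of a model. -/
def TaskHN : Prop := ∀ (N : Type) [LL.Structure N], Facts N → ∀ K, HSys (HN K : ℕ → N → N → Prop)

/-- Preservation of formulas. Hint: induction on `φ`. `forth` is TaskForth unfolded for the two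
structures; in the `all` case use it in both directions. Terms are variables. `R j` is `HN K (K - j)`, equality is
`HN K 0`, colours are `ty` at height `0`. -/
def TaskPres : Prop := ∀ (N M : Type) [LL.Structure N] [LL.Structure M] (K : ℕ) (F : Finset C0) (n : ℕ),
  (∀ (m : ℕ) (a : Fin m → N) (b : Fin m → M), m < n →
    Pos (HN K) (colN K F) (HN K) (colN K F) n (K + 1) a b →
    (∀ x, ∃ y, Pos (HN K) (colN K F) (HN K) (colN K F) n (K + 1) (Fin.snoc a x : Fin (m + 1) → N)
      (Fin.snoc b y : Fin (m + 1) → M)) ∧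
    (∀ y, ∃ x, Pos (HN K) (colN K F) (HN K) (colN K F) n (K + 1) (Fin.snoc a x : Fin (m + 1) → N)
      (Fin.snoc b y : Fin (m + 1) → M))) →
  ∀ (m : ℕ) (φ : LL.BoundedFormula Empty m), Supp K F φ → m + qd φ ≤ n → ∀ (a : Fin m → N) (b : Fin m → M),
    Pos (HN K) (colN K F) (HN K) (colN K F) n (K + 1) a b →
    (φ.Realize default a ↔ φ.Realize default b)

/-- Every formula has finitely many symbols. Hint: induction; `Supp` is monotone. -/
def TaskSupp : Prop := ∀ (m : ℕ) (φ : LL.BoundedFormula Empty m), ∃ K F, 1 ≤ K ∧ Supp K F φ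

/-- Semantics of the axioms. -/
def TaskFacts : Prop := ∀ (N : Type) [LL.Structure N], N ⊨ TT → Nonempty (Facts N)

/-- Semantics of the axioms, converse. -/
def TaskAx : Prop := ∀ (N : Type) [LL.Structure N], Facts N → N ⊨ TT

/-- Subsets of `Big` that contain `C` are models. -/
def TaskSub : Prop := ∀ S : Set Big, ∀ hS : (∀ c, Sum.inl c ∈ S), ∃ f : Facts S, ∀ c, f.u c = ⟨Sum.inl c, hS c⟩

/-- Syntax of the axioms. Hint: `IsQF` constructors, `BoundedFormula.IsQF.imp`, `isQF` of atomic formulas. -/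
def TaskEx2 : Prop := ∀ φ, Ax φ → Blk false 2 φ

/-- The structure `C`. -/
abbrev CS : Set Big := Set.range Sum.inl

/-- The elements of `C`. -/
def cEl (c : C0) : CS := ⟨Sum.inl c, c, rfl⟩

/-- Types of named elements. Hint: TaskLoc and TaskTrans with the map `cEl c ↦ f.u c`, `S'` the class
`{y | rR 0 (cEl c) y}` and `S = {y | rR 0 (f.u c) y}`, `top = K`. -/
def TaskUty : Prop := TaskCls → TaskLoc → TaskTrans → TaskImg → TaskHN → TaskSub →
  ∀ (N : Type) [LL.Structure N] (f : Facts N) (K : ℕ) (F : Finset C0) (n : ℕ) (c : C0), ∀ h, h ≤ K →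
    ty (HN K) (colN K F) n Set.univ h (f.u c) = ty (HN K) (colN K F) n Set.univ h (cEl c)

/-- Coding of a finite subset `S` of one `R 0`-class: a code and an enumeration, such that the relations `R j`
and predicates `V j`, `j < K`, agree. Hint: `S = {s 0, …, s (l-1)}`; the label of `s i` at `r`, `r + 1 < K`,
is the least `i'` with `rR (r+1) (s i') (s i)`; `R j` for `j ≥ 1` is agreement of labels `< j`. -/
def TaskCode : Prop := ∀ (N : Type) [LL.Structure N] (f : Facts N) (K : ℕ) (S : Set N), S.Finite →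
  (∀ x ∈ S, ∀ y ∈ S, rR 0 x y) → ∃ (w : Code) (e : Fin w.length → N), Function.Injective e ∧ Set.range e = S ∧
    (∀ (q : ℕ) (i i' : Fin w.length) j, j < K →
      (bR j (Sum.inl ⟨(q, w), i⟩) (Sum.inl ⟨(q, w), i'⟩) ↔ rR j (e i) (e i'))) ∧
    (∀ (q : ℕ) (i : Fin w.length) k, k < K → (bV k (Sum.inl ⟨(q, w), i⟩) ↔ rV k (e i)))

/-- Types of unnamed classes are realized infinitely often in `C`. Hint: TaskFin at height `K`, TaskCode;
for all but finitely many `q` the copy `(q, w)` contains no element of `F`; TaskTrans and TaskLoc (or TaskUty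
style) for the copy. -/
def TaskCopies : Prop := TaskCls → TaskInv → TaskLoc → TaskTrans → TaskImg → TaskHN → TaskSub → TaskFin →
  TaskTyFin → TaskCode →
  ∀ (N : Type) [LL.Structure N] (f : Facts N) (K : ℕ) (F : Finset C0) (n : ℕ), 1 ≤ K → 1 ≤ n →
  ∀ x : N, (∀ c, ¬ rR 0 (f.u c) x) →
    ((fun y : CS => {z : CS | HN K K z y}) '' {y : CS | ty (HN K) (colN K F) n Set.univ K y =
      ty (HN K) (colN K F) n Set.univ K x}).Infinite

/-- Root types. Hint: `ty` at `K + 1`, `HN K (K+1)` is `True`. For a type `t` let `A`, `B` be the sets of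
classes of type `t` in `N`, in `CS`. `B.encard ≤ A.encard` by `c ↦ f.u c` and TaskUty. If some class in `A`
has no named element, `B` is infinite by TaskCopies; otherwise `A.encard ≤ B.encard`. -/
def TaskRoot : Prop := TaskCls → TaskHN → TaskSub → TaskUty → TaskCopies →
  (∀ (N : Type) [LL.Structure N] (f : Facts N) (K : ℕ) (F : Finset C0) (n : ℕ) (c : C0), ∀ h, h ≤ K →
    ty (HN K) (colN K F) n Set.univ h (f.u c) = ty (HN K) (colN K F) n Set.univ h (cEl c)) →
  (∀ (N : Type) [LL.Structure N] (f : Facts N) (K : ℕ) (F : Finset C0) (n : ℕ), 1 ≤ K → 1 ≤ n →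
    ∀ x : N, (∀ c, ¬ rR 0 (f.u c) x) →
    ((fun y : CS => {z : CS | HN K K z y}) '' {y : CS | ty (HN K) (colN K F) n Set.univ K y =
      ty (HN K) (colN K F) n Set.univ K x}).Infinite) →
  ∀ (N : Type) [LL.Structure N] (f : Facts N) (K : ℕ) (F : Finset C0) (n : ℕ), 1 ≤ K → 1 ≤ n →
  ∀ (x : N) (y : CS),
    ty (HN K) (colN K F) n Set.univ (K + 1) x = ty (HN K) (colN K F) n Set.univ (K + 1) y

/-- The tree game. Hint: if `x = a i`, take `b i`. Otherwise let `d ≤ κ` be the largest number such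
that `x` agrees with some `a i` below `d` (`d = 0` if there is no `i`); `y r = b i r` for `r < d`,
`y d = (fresh, ·)`, `y r = (0, ·)` for `d < r < κ`, and the second components
for `d ≤ r < κ` are `typ ρ x (r+1) || !typ ρ' y r`. -/
def TaskTree : Prop := ∀ (κ : ℕ) (ρ ρ' : Bool) (n : ℕ), 1 ≤ n → Good κ n ρ ρ' 0 → ∀ (ι : Type) [Finite ι]
  (a b : ι → ℕ → ℕ × Bool), (∀ i, a i ∈ Lf κ ρ) → (∀ i, b i ∈ Lf κ ρ') → TPos κ ρ ρ' n a b →
  ∀ x ∈ Lf κ ρ, ∃ y ∈ Lf κ ρ', (∀ l, l ≤ κ → Good κ n (typ ρ x l) (typ ρ' y l) l) ∧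
    ∀ i l, (∀ r < l, x r = a i r) ↔ (∀ r < l, y r = b i r)

/-- Preservation of `∃ₙ`- and `∀ₙ`-formulas. Hint: induction on `Blk`. -/
def TaskBlk : Prop := ∀ (L : FirstOrder.Language.{0, 0}) (A B : Type) [L.Structure A] [L.Structure B]
  (P : Bool → ℕ → ∀ m, (Fin m → A) → (Fin m → B) → Prop),
  (∀ d n m a b, P d n m a b → ∀ φ : L.BoundedFormula Empty m, φ.IsQF →
    (φ.Realize default a ↔ φ.Realize default b)) →
  (∀ n m a b, P true (n + 1) m a b → ∀ x, ∃ y, P true (n + 1) (m + 1) (Fin.snoc a x) (Fin.snoc b y)) →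
  (∀ n m a b, P false (n + 1) m a b → ∀ y, ∃ x, P false (n + 1) (m + 1) (Fin.snoc a x) (Fin.snoc b y)) →
  (∀ n m a b, P true (n + 1) m a b → P false n m a b) →
  (∀ n m a b, P false (n + 1) m a b → P true n m a b) →
  ∀ (c : Bool) (n m : ℕ) (φ : L.BoundedFormula Empty m), Blk c n φ → ∀ a b,
    (c = false → (P true n m a b → φ.Realize default a → φ.Realize default b) ∧
      (P false n m a b → φ.Realize default b → φ.Realize default a)) ∧
    (c = true → (P true n m a b → φ.Realize default b → φ.Realize default a) ∧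
      (P false n m a b → φ.Realize default a → φ.Realize default b))

/-- the branch of an element -/
def br : Big → (ℕ → ℕ × Bool)
  | .inl _ => fun _ => (0, true)
  | .inr p => p.2

/-- the element is in sort `κ` -/
def inK (κ : ℕ) (x : Big) : Prop := ∃ s, x = .inr (κ, s)

/-- positions of the game on `NS ρ`, `NS ρ'`, `ρ = ρ'` off `κ` -/
structure GP (κ : ℕ) (ρ ρ' : ℕ → Bool) (d : Bool) (n m : ℕ) (a : Fin m → NS ρ) (b : Fin m → NS ρ') :
    Prop where
  big : n + 1 ≤ κ
  same : ∀ i, ¬ inK κ (a i).1 → (b i).1 = (a i).1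
  same' : ∀ i, inK κ (a i).1 → inK κ (b i).1
  good : ∀ i, inK κ (a i).1 → ∀ l, l ≤ κ →
    if d = true then Good κ n (typ (ρ κ) (br (a i).1) l) (typ (ρ' κ) (br (b i).1) l) l
    else Good κ n (typ (ρ' κ) (br (b i).1) l) (typ (ρ κ) (br (a i).1) l) l
  agree : ∀ i j, inK κ (a i).1 → inK κ (a j).1 → ∀ l,
    (∀ r < l, br (a i).1 r = br (a j).1 r) ↔ (∀ r < l, br (b i).1 r = br (b j).1 r)

/-- the constant `star` -/
instance conS (ρ : ℕ → Bool) : (constantsOn (Fin 1)).Structure (NS ρ) :=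
  constantsOn.structure (fun _ => star ρ)

/-- Quantifier-free formulas. Hint: terms are variables or the constant (value `star`, which is in sort `0 ≠ κ`
and is the same element of `Big`); every atomic formula depends only on the data of `GP`: two elements of
sort `κ` are equal iff their branches agree below `κ`; `V 0` is `typ` at `l = κ`, where `Good` gives equality. -/
def TaskG0 : Prop := ∀ (κ : ℕ) (ρ ρ' : ℕ → Bool) (d : Bool) (n m : ℕ) (a : Fin m → NS ρ) (b : Fin m → NS ρ'),
  GP κ ρ ρ' d n m a b → ∀ φ : LL[[Fin 1]].BoundedFormula Empty m, φ.IsQF →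
    (φ.Realize default a ↔ φ.Realize default b)

/-- Forth. Hint: `x` not in sort `κ`: the same element (it is in `NS ρ'` as `ρ = ρ'` off `κ`). Otherwise TaskTree
with `ι = {i // inK κ (a i).1}`; `Good κ n _ _ 0` holds since `n + 1 ≤ κ`. -/
def TaskG1 : Prop := TaskTree → ∀ (κ : ℕ) (ρ ρ' : ℕ → Bool), (∀ k, k ≠ κ → ρ k = ρ' k) →
  ∀ (n m : ℕ) (a : Fin m → NS ρ) (b : Fin m → NS ρ'),
  GP κ ρ ρ' true (n + 1) m a b → ∀ x, ∃ y, GP κ ρ ρ' true (n + 1) (m + 1) (Fin.snoc a x) (Fin.snoc b y)

/-- Back. Hint: as TaskG1 with the two sides exchanged. -/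
def TaskG1b : Prop := TaskTree → ∀ (κ : ℕ) (ρ ρ' : ℕ → Bool), (∀ k, k ≠ κ → ρ k = ρ' k) →
  ∀ (n m : ℕ) (a : Fin m → NS ρ) (b : Fin m → NS ρ'),
  GP κ ρ ρ' false (n + 1) m a b → ∀ y, ∃ x, GP κ ρ ρ' false (n + 1) (m + 1) (Fin.snoc a x) (Fin.snoc b y)

/-- Change of direction. Hint: `Good κ (n+1) t t' l → Good κ n t' t l`. -/
def TaskG2 : Prop := ∀ (κ : ℕ) (ρ ρ' : ℕ → Bool) (n m : ℕ) (a : Fin m → NS ρ) (b : Fin m → NS ρ'),
  (GP κ ρ ρ' true (n + 1) m a b → GP κ ρ ρ' false n m a b) ∧
  (GP κ ρ ρ' false (n + 1) m a b → GP κ ρ ρ' true n m a b)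

/-- Branches. Hint: `s'` agrees with `s` below `l`, `s' l = (0, false)`, `(0, true)` afterwards. -/
def TaskBr : Prop := ∀ (κ : ℕ) (ρ : Bool), (Lf κ ρ).Nonempty ∧ ∀ s ∈ Lf κ ρ, ∀ l < κ,
  (typ ρ s l = true ↔ ∃ s' ∈ Lf κ ρ, (∀ r < l, s' r = s r) ∧ typ ρ s' (l + 1) = false)

/-- The distinguishing sentence. Hint: by recursion on `h` a formula `phi h m` in `m + 1` variables that says,
for the value `.inr (κ, s)` of the last variable, `typ (ρ κ) s (κ - h) = true`: `phi 0 m = V 0 (x m)`,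
`phi (h+1) m = ∃ y (R (κ - h) (x m) y ∧ ¬ phi h (m+1) (y))` (for `h < κ`; elements
with `R (j+1)` are in the same sort). The sentence is `∃ y (R 0 star y ∧ V (κ+1) y ∧ phi κ 0 (y))`. -/
def TaskSent : Prop := TaskBr → ∀ κ : ℕ, 1 ≤ κ → ∃ ψ : LL[[Fin 1]].Sentence, ∀ ρ : ℕ → Bool,
  (NS ρ ⊨ ψ ↔ ρ κ = true)

/-- The language is relational and countable. -/
def TaskLang : Prop := LL.IsRelational ∧ Countable LL.Symbols

end H313UT
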