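import Pool.Agent.H313UT.Stmts

/-! Blueprint for MP_ba14eb_lc: one step of the game, by counting (fallback by helper182). -/

set_option linter.unusedVariables false

namespace H313UT

theorem TaskCount_proof : TaskCount := by
  intro hI hC hV X Y κ H col H' col' n g m a b hH hH' hmn x y0 hty hab hg htab hx
  obtain ⟨t, ht⟩ : ∃ t, t = ty H col n Set.univ g x := ⟨_, rfl⟩
  have hAB : ∀ k : Fin (n + 1), ((k : ℕ) : ℕ∞) ≤
      ((fun y => {z | H g z y}) '' {y | y ∈ Set.univ ∧ H (g + 1) y x ∧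
        ty H col n Set.univ g y = t}).encard ↔ ((k : ℕ) : ℕ∞) ≤
      ((fun y => {z | H' g z y}) '' {y | y ∈ Set.univ ∧ H' (g + 1) y y0 ∧
        ty H' col' n Set.univ g y = t}).encard := by
    intro k
    have h := congrFun (congrFun hty t) k
    exact iff_of_eq h
  obtain ⟨J, hJd⟩ : ∃ J : Set (Fin m), J = {j | H (g + 1) (a j) x ∧
    ty H col n Set.univ g (a j) = t} := ⟨_, rfl⟩
  have hJ : ((fun j => {z | H g z (a j)}) '' J).encard =
      ((fun j => {z | H' g z (b j)}) '' J).encard :=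
    hI _ _ _ _ _ _ (by
      rintro i _ j _
      rw [(hC X H hH).2, (hC Y H' hH').2]
      exact hg i j)
  have hJm : ((fun j => {z | H g z (a j)}) '' J).encard ≤ m := by
    calc _ ≤ J.encard := Set.encard_image_le _ _
      _ ≤ (Set.univ : Set (Fin m)).encard := Set.encard_le_encard (Set.subset_univ _)
      _ = m := by simp
  obtain ⟨s, hs⟩ : ∃ s : ℕ, (s : ℕ∞) = ((fun j => {z | H g z (a j)}) '' J).encard :=
    ENat.ne_top_iff_exists.1 (ne_top_of_le_ne_top (ENat.natCast_ne_top m) hJm)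
  have hsm : s ≤ m := by
    rw [← hs] at hJm
    exact_mod_cast hJm
  have hA : ((s + 1 : ℕ) : ℕ∞) ≤ ((fun y => {z | H g z y}) '' {y | y ∈ Set.univ ∧
      H (g + 1) y x ∧ ty H col n Set.univ g y = t}).encard := by
    have h1 : {z | H g z x} ∉ (fun j => {z | H g z (a j)}) '' J := by
      rintro ⟨j, _, hj⟩
      exact hx j (((hC X H hH).2 g _ _).1 hj)
    have h2 := Set.encard_insert_of_notMem h1
    rw [← hs] at h2
    have h3 : insert {z | H g z x} ((fun j => {z | H g z (a j)}) '' J) ⊆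
        (fun y => {z | H g z y}) '' {y | y ∈ Set.univ ∧
          H (g + 1) y x ∧ ty H col n Set.univ g y = t} := by
      rintro c (rfl | ⟨j, hj, rfl⟩)
      · exact ⟨x, ⟨Set.mem_univ _, (hH.eqv (g + 1)).refl x, ht.symm⟩, rfl⟩
      · rw [hJd] at hj
        exact ⟨a j, ⟨Set.mem_univ _, hj.1, hj.2⟩, rfl⟩
    have h4 := Set.encard_le_encard h3
    rw [h2] at h4
    push_cast
    exact h4
  have hB := (hAB ⟨s + 1, by omega⟩).1 hA
  have hne : ¬ ((fun y => {z | H' g z y}) '' {y | y ∈ Set.univ ∧ H' (g + 1) y y0 ∧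
        ty H' col' n Set.univ g y = t}) ⊆ (fun j => {z | H' g z (b j)}) '' J := by
    intro h
    have h1 := hB.trans (Set.encard_le_encard h)
    rw [← hJ, ← hs] at h1
    have h2 : s + 1 ≤ s := by exact_mod_cast h1
    omega
  obtain ⟨c, hcB, hcJ⟩ := Set.not_subset.1 hne
  obtain ⟨y, ⟨_, hy1, hy2⟩, rfl⟩ := hcB
  refine ⟨y, hy1, hy2.trans ht, fun j hj => hcJ ⟨j, ?_, ?_⟩⟩
  · rw [hJd]
    exact ⟨(hab j).2 ((hH'.eqv (g + 1)).trans (hH'.mono g _ _ hj) hy1),
      (htab j).trans ((hV Y κ H' col' n Set.univ hH' g _ _ hj).trans hy2)⟩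
  · exact ((hC Y H' hH').2 g _ _).2 hj

end H313UT
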