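import Pool.Agent.H313UT.Stmts

/-! # Counting (MP_ba14eb_lc, task UT.TaskCount) -/

open FirstOrder FirstOrder.Language

set_option linter.unusedVariables false

namespace H313UT

theorem TaskCount_proof26 : TaskCount := by
  intro hImg hCls hInv X Y κ H col H' col' n g m a b hH hH' hmn x y0 hty hab hagree htab hx
  classical
  set t := ty H col n Set.univ g x with ht
  set A : Set (Set X) := (fun y => {z | H g z y}) ''
    {y | y ∈ Set.univ ∧ H (g + 1) y x ∧ ty H col n Set.univ g y = t} with hA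
  set B : Set (Set Y) := (fun y => {z | H' g z y}) ''
    {y | y ∈ Set.univ ∧ H' (g + 1) y y0 ∧ ty H' col' n Set.univ g y = t} with hB
  have hAB : ∀ k : Fin (n + 1), ((((k : ℕ) : ℕ∞)) ≤ A.encard) → ((((k : ℕ) : ℕ∞)) ≤ B.encard) := by
    intro k hk
    have h1 : ty H col n Set.univ (g + 1) x t k := hk
    rw [hty] at h1
    exact h1
  set J : Set (Fin m) := {j | H (g + 1) (a j) x ∧ ty H col n Set.univ g (a j) = t} with hJ
  set A0 : Set (Set X) := (fun j => {z | H g z (a j)}) '' J with hA0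
  set B0 : Set (Set Y) := (fun j => {z | H' g z (b j)}) '' J with hB0
  have hcard : A0.encard = B0.encard := by
    refine hImg (Fin m) (Set X) (Set Y) J _ _ ?_
    intro i _ j _
    show ({z | H g z (a i)} = {z | H g z (a j)}) ↔ ({z | H' g z (b i)} = {z | H' g z (b j)})
    rw [(hCls X H hH).2 g (a i) (a j), (hCls Y H' hH').2 g (b i) (b j)]
    exact hagree i j
  have hxA : {z | H g z x} ∈ A := ⟨x, ⟨trivial, (hH.eqv (g + 1)).refl x, rfl⟩, rfl⟩
  have hxA0 : {z | H g z x} ∉ A0 := by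
    rintro ⟨j, _, hj⟩
    exact hx j (((hCls X H hH).2 g (a j) x).mp hj)
  have hA0A : A0 ⊆ A := by
    rintro _ ⟨j, hj, rfl⟩
    exact ⟨a j, ⟨trivial, hj.1, hj.2⟩, rfl⟩
  have hins : A0.encard + 1 ≤ A.encard := by
    rw [← Set.encard_insert_of_notMem hxA0]
    exact Set.encard_le_encard (Set.insert_subset hxA hA0A)
  have hJm : A0.encard ≤ (m : ℕ∞) := by
    refine (Set.encard_image_le _ _).trans ?_
    refine (Set.encard_le_encard (Set.subset_univ J)).trans ?_
    rw [Set.encard_univ]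
    simp
  have hfin : A0.Finite := Set.Finite.image _ (Set.toFinite J)
  obtain ⟨s, hs⟩ : ∃ s : ℕ, A0.encard = (s : ℕ∞) := ⟨A0.ncard, (hfin.cast_ncard_eq).symm⟩
  have hsm : s ≤ m := by
    rw [hs] at hJm
    exact_mod_cast hJm
  have hB1 : (((s + 1 : ℕ) : ℕ∞)) ≤ B.encard := by
    refine hAB ⟨s + 1, by omega⟩ ?_
    rw [hs] at hins
    push_cast
    exact hins
  have hnot : ¬ B ⊆ B0 := by
    intro hsub
    have h1 := hB1.trans (Set.encard_le_encard hsub)
    rw [← hcard, hs] at h1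
    have h2 : s + 1 ≤ s := by exact_mod_cast h1
    omega
  obtain ⟨w, hwB, hwB0⟩ := Set.not_subset.mp hnot
  obtain ⟨y, ⟨-, hy1, hy2⟩, rfl⟩ := hwB
  refine ⟨y, hy1, hy2, fun j hj => hwB0 ⟨j, ?_, ?_⟩⟩
  · have h1 : H' (g + 1) (b j) y0 := (hH'.eqv (g + 1)).trans (hH'.mono g _ _ hj) hy1
    refine ⟨(hab j).mpr h1, ?_⟩
    rw [htab j, ← hy2]
    exact hInv Y κ H' col' n Set.univ hH' g (b j) y hj
  · exact ((hCls Y H' hH').2 g (b j) y).mpr hj

end H313UT
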