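import Pool.Agent.H313UT.Stmts

open FirstOrder FirstOrder.Language

namespace H313UT

namespace TF

variable {N : Type} [LL.Structure N]

theorem rfU {m : ℕ} (c : C0) (i : Fin m) (v : Empty → N) (xs : Fin m → N) :
    (fU c i).Realize v xs ↔ rU c (xs i) := by
  unfold fU rU
  rw [BoundedFormula.realize_rel₁]
  rfl

theorem rfV {m : ℕ} (k : ℕ) (i : Fin m) (v : Empty → N) (xs : Fin m → N) :
    (fV k i).Realize v xs ↔ rV k (xs i) := by
  unfold fV rV
  rw [BoundedFormula.realize_rel₁]
  rfl

theorem rfR {m : ℕ} (j : ℕ) (i i' : Fin m) (v : Empty → N) (xs : Fin m → N) :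
    (fR j i i').Realize v xs ↔ rR j (xs i) (xs i') := by
  unfold fR rR
  rw [BoundedFormula.realize_rel₂]
  rfl

theorem rdisj {m : ℕ} (l : List (LL.BoundedFormula Empty m)) (v : Empty → N) (xs : Fin m → N) :
    (disj l).Realize v xs ↔ ∃ φ ∈ l, φ.Realize v xs := by
  induction l with
  | nil => simp [disj]
  | cons a l ih => simp [disj, ih]

end TF

open TF

theorem TaskFacts_proof : TaskFacts := by
  intro N _ hN
  have hax : ∀ φ, Ax φ → N ⊨ φ := fun φ h => Theory.realize_sentence_of_mem TT h
  have hname : ∀ c : C0, ∃ a : N, ∀ x : N, rU c x ↔ x = a := by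
    intro c
    have h := hax _ (Ax.name c)
    simp only [Sentence.Realize, Formula.Realize, BoundedFormula.realize_ex, BoundedFormula.realize_all,
      BoundedFormula.realize_iff, rfU, BoundedFormula.realize_bdEqual, Term.realize_var] at h
    obtain ⟨a, ha⟩ := h
    exact ⟨a, fun x => ha x⟩
  choose u hu using hname
  have hdis : ∀ c c' : C0, c ≠ c' → ∀ x : N, rU c x → ¬ rU c' x := by
    intro c c' hc x
    have h := hax _ (Ax.disjoint c c' hc)
    simp only [Sentence.Realize, Formula.Realize, BoundedFormula.realize_all,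
      BoundedFormula.realize_imp, BoundedFormula.realize_not, rfU] at h
    exact h x
  have hRp : ∀ c c' j, bR j (.inl c) (.inl c') → rR j (u c) (u c') := by
    intro c c' j hb
    have h := hax _ (Ax.relPos c c' j hb)
    simp only [Sentence.Realize, Formula.Realize, BoundedFormula.realize_all,
      BoundedFormula.realize_imp, rfU, rfR] at h
    exact h (u c) (u c') ((hu c _).2 rfl) ((hu c' _).2 rfl)
  have hRn : ∀ c c' j, ¬ bR j (.inl c) (.inl c') → ¬ rR j (u c) (u c') := by
    intro c c' j hb
    have h := hax _ (Ax.relNeg c c' j hb)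
    simp only [Sentence.Realize, Formula.Realize, BoundedFormula.realize_all,
      BoundedFormula.realize_imp, BoundedFormula.realize_not, rfU, rfR] at h
    exact h (u c) (u c') ((hu c _).2 rfl) ((hu c' _).2 rfl)
  have hVp : ∀ c k, bV k (.inl c) → rV k (u c) := by
    intro c k hb
    have h := hax _ (Ax.colPos c k hb)
    simp only [Sentence.Realize, Formula.Realize, BoundedFormula.realize_all,
      BoundedFormula.realize_imp, rfU, rfV] at h
    exact h (u c) ((hu c _).2 rfl)
  have hVn : ∀ c k, ¬ bV k (.inl c) → ¬ rV k (u c) := by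
    intro c k hb
    have h := hax _ (Ax.colNeg c k hb)
    simp only [Sentence.Realize, Formula.Realize, BoundedFormula.realize_all,
      BoundedFormula.realize_imp, BoundedFormula.realize_not, rfU, rfV] at h
    exact h (u c) ((hu c _).2 rfl)
  refine ⟨⟨u, hu, ?_, ?_, ?_, ?_, ?_, ?_⟩⟩
  · intro c c' h
    by_contra hne
    exact hdis c c' hne (u c) ((hu c _).2 rfl) ((hu c' _).2 h)
  · intro c c' j
    by_cases hb : bR j (.inl c) (.inl c')
    · exact ⟨fun _ => hb, fun _ => hRp c c' j hb⟩
    · exact ⟨fun h => absurd h (hRn c c' j hb), fun h => absurd h hb⟩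
  · intro c k
    by_cases hb : bV k (.inl c)
    · exact ⟨fun _ => hb, fun _ => hVp c k hb⟩
    · exact ⟨fun h => absurd h (hVn c k hb), fun h => absurd h hb⟩
  · intro j
    refine ⟨?_, ?_, ?_⟩
    · intro x
      have h := hax _ (Ax.refl j)
      simp only [Sentence.Realize, Formula.Realize, BoundedFormula.realize_all, rfR] at h
      exact h x
    · intro x y hxy
      have h := hax _ (Ax.symm j)
      simp only [Sentence.Realize, Formula.Realize, BoundedFormula.realize_all,
        BoundedFormula.realize_imp, rfR] at h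
      exact h x y hxy
    · intro x y z hxy hyz
      have h := hax _ (Ax.trans j)
      simp only [Sentence.Realize, Formula.Realize, BoundedFormula.realize_all,
        BoundedFormula.realize_imp, rfR] at h
      exact h x y z hxy hyz
  · intro j x y hxy
    have h := hax _ (Ax.nest j)
    simp only [Sentence.Realize, Formula.Realize, BoundedFormula.realize_all,
      BoundedFormula.realize_imp, rfR] at h
    exact h x y hxy
  · intro c x hx
    have h := hax _ (Ax.closed c)
    simp only [Sentence.Realize, Formula.Realize, BoundedFormula.realize_all,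
      BoundedFormula.realize_imp, rfR, rfU, rdisj] at h
    obtain ⟨φ, hφ, hr⟩ := h (u c) x ((hu c _).2 rfl) hx
    rw [List.mem_map] at hφ
    obtain ⟨c', _, rfl⟩ := hφ
    rw [rfU] at hr
    exact ⟨c', (hu c' _).1 hr⟩

end H313UT
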