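import Pool.Agent.H313UT.Stmts

open FirstOrder FirstOrder.Language

namespace H313UT

/-- code of a relation symbol -/
def relCode : (l : ℕ) → LRel l → C0 ⊕ (ℕ ⊕ ℕ)
  | _, .U c => .inl c
  | _, .V k => .inr (.inl k)
  | _, .R j => .inr (.inr j)

theorem relCode_inj (l : ℕ) : Function.Injective (relCode l) := by
  intro a b h
  cases a with
  | U c =>
    cases b with
    | U c' =>
      simp only [relCode, Sum.inl.injEq] at h
      rw [h]
    | V k => simp [relCode] at h
  | V k =>
    cases b with
    | U c' => simp [relCode] at h
    | V k' =>
      simp only [relCode, Sum.inr.injEq, Sum.inl.injEq] at h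
      rw [h]
  | R j =>
    cases b with
    | R j' =>
      simp only [relCode, Sum.inr.injEq] at h
      rw [h]

theorem TaskLang_proof : TaskLang := by
  have h1 : ∀ n, IsEmpty (LL.Functions n) := fun n => (inferInstance : IsEmpty Empty)
  have h2 : ∀ l, Countable (LL.Relations l) := fun l => by
    haveI : Countable C0 := inferInstance
    exact (relCode_inj l).countable
  refine ⟨h1, ?_⟩
  haveI := h1
  haveI := h2
  haveI h3 : ∀ n, Countable (LL.Functions n) := fun n => inferInstance
  unfold Language.Symbols
  infer_instance

end H313UT
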